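import Pool.Agent.Helper60.ZH.A6
import Pool.Agent.Helper60.ZC.A7

/-!
# Part A for hypersurfaces: the encoding
-/

set_option autoImplicit false

namespace Pool.Agent.Helper60.ZH

open Pool.Agent.R948 Pool.Agent.Helper60.ZC

section

variable {L : Type} [Field L] [Algebra ℂ L]

/-- **the encoding** -/
theorem t_enc {N : ℕ} {H : MvPolynomial (Fin N) ℂ}
    (hpl : ∀ (L : Type) [Field L] [Algebra ℂ L] [IsAlgClosed L], Mob L H 1 1 0 1) : Enc H := by
  classical
  intro L _ _ _ n w I hw
  let A : Set Lˣ := w '' (I : Set (Fin n))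
  have hcl : ∀ i, w i ∈ Cl H A := by
    intro i
    refine cl_of_alg (hpl L) A (w i) ?_
    have h1 : (fun x : Lˣ => (x : L)) '' A = (fun j => (w j : L)) '' (I : Set (Fin n)) := by
      rw [Set.image_image]
    rw [h1]
    exact hw i
  obtain ⟨s, ⟨G, hG1, hG2⟩, hws⟩ := exists_det (Finset.univ.image w) (by
    intro x hx
    obtain ⟨i, -, rfl⟩ := Finset.mem_image.1 hx
    exact hcl i)
  have hw' : ∀ i, w i ∈ s := fun i => hws (Finset.mem_image_of_mem _ (Finset.mem_univ i))
  let P : Submodule ℤ (Q L) := Submodule.span ℤ ((s.image cl : Finset (Q L)) : Set (Q L))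
  have hfin : Module.Finite ℤ P := Module.Finite.span_finset ℤ (s.image cl)
  have hfree : Module.Free ℤ P := inferInstance
  let b := Module.Free.chooseBasis ℤ P
  let V := Module.Free.ChooseBasisIndex ℤ P
  have hu0 : ∀ v : V, ∃ x : Lˣ, cl x = (b v : Q L) := fun v => cl_surj _
  choose u hu using hu0
  have hmem : ∀ x ∈ s, cl x ∈ P := fun x hx =>
    Submodule.subset_span (by simpa using ⟨x, hx, rfl⟩)
  let η : Lˣ → V → ℤ := fun x => if hx : x ∈ s then fun v => b.repr ⟨cl x, hmem x hx⟩ v else 0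
  have hη : ∀ x ∈ s, cl (mon u (η x)) = cl x := by
    intro x hx
    rw [cl_mon]
    have h1 : η x = fun v => b.repr ⟨cl x, hmem x hx⟩ v := dif_pos hx
    have h2 := b.sum_repr ⟨cl x, hmem x hx⟩
    have h3 := congrArg (Subtype.val) h2
    rw [AddSubmonoidClass.coe_finsetSum] at h3
    rw [h1]
    refine Eq.trans (Finset.sum_congr rfl fun v _ => ?_) h3
    rw [hu v]
    rfl
  have hc0 : ∀ x : Lˣ, ∃ c : ℂˣ, x ∈ s → x = cst L c * mon u (η x) := by
    intro x
    by_cases hx : x ∈ s
    · obtain ⟨c, hc⟩ := cl_eq.1 (hη x hx)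
      exact ⟨c, fun _ => hc⟩
    · exact ⟨1, fun h => absurd h hx⟩
  choose c hc using hc0
  have hind : ∀ (a : V → ℤ) (z : ℂˣ), mon u a = cst L z → a = 0 := by
    intro a z h
    have h1 : cl (mon u a) = 0 := cl_eq_zero.2 ⟨z, h⟩
    rw [cl_mon] at h1
    have h2 : ∑ v, a v • b v = 0 := by
      apply Subtype.ext
      rw [AddSubmonoidClass.coe_finsetSum]
      change _ = (0 : Q L)
      rw [← h1]
      refine Finset.sum_congr rfl fun v _ => ?_
      rw [hu v]
      rfl
    funext v
    exact Fintype.linearIndependent_iff.1 b.linearIndependent a h2 v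
  have hgt : ∀ p ∈ G, gt (fun j => cst L (c (p j))) u (fun j => η (p j)) = p := by
    intro p hp
    funext j
    exact (hc _ ((hG1 p hp).2 j)).symm
  refine ⟨V, inferInstance, {p // p ∈ G}, inferInstance, u, fun i => c (w i), fun i => η (w i),
    fun g j => c (g.1 j), fun g j => η (g.1 j), hind,
    fun i => hc _ (hw' i), fun g => ?_, fun δ h1 h2 => ?_⟩
  · rw [hgt g.1 g.2]
    exact (hG1 g.1 g.2).1
  · obtain ⟨D, hD⟩ := exists_ld u hind δ
    have h3 : ∀ x ∈ s, D.f x = ∑ v, (η x v : L) * δ v := by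
      intro x hx
      conv_lhs => rw [hc x hx]
      rw [D.f_mon]
      exact Finset.sum_congr rfl fun v _ => by rw [hD v]
    have h4 : ∀ x ∈ s, D.f x = 0 := by
      refine hG2 D (fun p hp => ?_) (fun a ha => ?_)
      · have h5 := h1 ⟨p, hp⟩
        simp only [hgt p hp] at h5
        rw [Lin]
        rw [← h5]
        have h6 : ∀ j, D.f (p j) = ∑ v, (η (p j) v : L) * δ v := fun j => h3 _ ((hG1 p hp).2 j)
        simp only [h6, row, Finset.sum_mul, Finset.mul_sum]
        rw [Finset.sum_comm]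
        refine Finset.sum_congr rfl fun v _ => Finset.sum_congr rfl fun j _ => ?_
        ring
      · obtain ⟨i, hi, rfl⟩ := ha
        rw [h3 _ (hw' i)]
        exact h2 i hi
    -- the values on `P` are all zero
    have h5 : ∀ q ∈ P, ∀ x : Lˣ, cl x = q → D.f x = 0 := by
      intro q hq
      induction hq using Submodule.span_induction with
      | mem q hq =>
        intro x hx
        obtain ⟨y, hy, rfl⟩ := Finset.mem_image.1 (Finset.mem_coe.1 hq)
        obtain ⟨d, rfl⟩ := cl_eq.1 hx.symm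
        rw [D.mul', D.cst', h4 y hy, add_zero]
      | zero =>
        intro x hx
        obtain ⟨d, rfl⟩ := cl_eq_zero.1 hx
        exact D.cst' d
      | add q q' _ _ ih ih' =>
        intro x hx
        obtain ⟨y, hy⟩ := cl_surj q
        obtain ⟨y', hy'⟩ := cl_surj q'
        have h6 : cl (y * y') = cl x := by rw [cl_mul', hy, hy', hx]
        obtain ⟨d, rfl⟩ := cl_eq.1 h6
        rw [D.mul', D.cst', D.mul', ih y hy, ih' y' hy', add_zero, add_zero]
      | smul m q _ ih =>
        intro x hx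
        obtain ⟨y, hy⟩ := cl_surj q
        have h6 : cl (y ^ m) = cl x := by rw [cl_zpow', hy, hx]
        obtain ⟨d, rfl⟩ := cl_eq.1 h6
        rw [D.mul', D.cst', D.zpow, ih y hy, mul_zero, add_zero]
    funext v
    rw [← hD v]
    exact h5 _ (b v).2 (u v) (hu v)

end

end Pool.Agent.Helper60.ZH
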