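import Pool.Agent.Helper60.ZC.Def

/-!
# Zilber's conjecture and the powers of one hypersurface: definitions and the statements of the parts
-/

set_option autoImplicit false

namespace Pool.Agent.Helper60.ZH

open MvPolynomial Pool.Agent.R948 Pool.Agent.Helper60.ZC

/-- the value of `H` at a tuple of units -/
noncomputable def hw {N : ℕ} {L : Type} [CommRing L] [Algebra ℂ L] (H : MvPolynomial (Fin N) ℂ)
    (p : Fin N → Lˣ) : L :=
  aeval (fun j => (p j : L)) H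

/-- the `k`-th power of the hypersurface `H = 0` in `G_m ^ N` -/
def power {N : ℕ} (H : MvPolynomial (Fin N) ℂ) (k : ℕ) : Set (Fin k × Fin N → ℂˣ) :=
  {z | ∀ i, hw H (fun j => z (i, j)) = 0}

/-- the points of rank less than the codimension `k` of the `k`-th power lie in finitely many atypical
subvarieties -/
def FinPts {N : ℕ} (H : MvPolynomial (Fin N) ℂ) (k : ℕ) : Prop :=
  ∃ 𝒜 : Set (Set (Fin k × Fin N → ℂˣ)), 𝒜.Finite ∧
    (∀ A ∈ 𝒜, Subvariety A ∧ A ⊆ power H k ∧ defect A < k) ∧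
    ∀ z ∈ power H k, N * k + 1 ≤ dr z + k → ∃ A ∈ 𝒜, z ∈ A

/-- the logarithmic gradient of `H` at `p` if `p_j` is a constant multiple of the monomial with exponents
`α j` -/
noncomputable def row {N : ℕ} {L V : Type} [CommRing L] [Algebra ℂ L] (H : MvPolynomial (Fin N) ℂ)
    (p : Fin N → Lˣ) (α : Fin N → V → ℤ) : V → L :=
  fun v => ∑ j, (p j : L) * hw (pderiv j H) p * (α j v : L)

/-- the point with the coordinates `κ_j * u ^ α_j` -/
noncomputable def gt {N : ℕ} {V : Type} [Fintype V] {G : Type} [CommGroup G] (κ : Fin N → G)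
    (u : V → G) (α : Fin N → V → ℤ) : Fin N → G :=
  fun j => κ j * mon u (α j)

/-- **Encoding**. -/
def Enc {N : ℕ} (H : MvPolynomial (Fin N) ℂ) : Prop :=
  ∀ (L : Type) [Field L] [Algebra ℂ L] [IsAlgClosed L] (n : ℕ) (w : Fin n → Lˣ) (I : Finset (Fin n)),
    (∀ i, IsAlgebraic (Algebra.adjoin ℂ ((fun j => (w j : L)) '' (I : Set (Fin n)))) (w i : L)) →
    ∃ (V : Type) (_ : Fintype V) (G : Type) (_ : Fintype G) (u : V → Lˣ) (c : Fin n → ℂˣ)
      (η : Fin n → V → ℤ) (κ : G → Fin N → ℂˣ) (α : G → Fin N → V → ℤ),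
      (∀ (a : V → ℤ) (z : ℂˣ), mon u a = cst L z → a = 0) ∧
      (∀ i, w i = cst L (c i) * mon u (η i)) ∧
      (∀ g, hw H (gt (fun j => cst L (κ g j)) u (α g)) = 0) ∧
      ∀ δ : V → L, (∀ g, ∑ v, row H (gt (fun j => cst L (κ g j)) u (α g)) (α g) v * δ v = 0) →
        (∀ i ∈ I, ∑ v, (η i v : L) * δ v = 0) → δ = 0

/-- the point of the `k`-th power given by `r` points `u' i` of the torus with coordinates `V` and the
gates `g ∈ G`, if the `k` factors are numbered by `Fin r × G` -/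
noncomputable def om {N : ℕ} {G V : Type} [Fintype V] {r k : ℕ} (e : Fin k ≃ Fin r × G)
    (κ : G → Fin N → ℂˣ) (α : G → Fin N → V → ℤ) (u' : Fin r → V → ℂˣ) : Fin k × Fin N → ℂˣ :=
  fun t => gt (κ (e t.1).2) (u' (e t.1).1) (α (e t.1).2) t.2

/-- **B4** (the rank of the relations of a tuple of points). -/
def S_B4 : Prop :=
  ∀ (N r n d k : ℕ) (G V : Type) [Fintype G] [Fintype V] (e : Fin k ≃ Fin r × G)
    (α : G → Fin N → V → ℤ) (η : Fin n → V → ℤ) (κ : G → Fin N → ℂˣ) (c : Fin n → ℂˣ)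
    (u' : Fin r → V → ℂˣ) (y : Fin r → Fin n → ℂˣ),
    Fintype.card V ≤ Fintype.card G + d → N * Fintype.card G + n < r →
    (∀ i j, y i j = c j * mon (u' i) (η j)) → (∀ i, d + 1 ≤ dr (y i)) →
    (∀ a : Fin n → ℤ, (∀ v, ∑ j, a j * η j v = 0) → mon c a = 1 → a = 0) →
    N * k + 1 ≤ dr (om e κ α u') + k

/-- **B5** (no atypical subvariety contains all tuples of points). -/
def S_B5 : Prop :=
  ∀ (N : ℕ) (H : MvPolynomial (Fin N) ℂ) (R : Type) [CommRing R] [IsDomain R] [Algebra ℂ R]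
    [Algebra.FiniteType ℂ R] (V G : Type) [Fintype V] [Fintype G] (u : V → Rˣ)
    (κ : G → Fin N → ℂˣ) (α : G → Fin N → V → ℤ) (r k : ℕ) (e : Fin k ≃ Fin r × G),
    (∀ (a : V → ℤ) (z : ℂ), ((mon u a : Rˣ) : R) = algebraMap ℂ R z → a = 0) →
    (∀ b : R, b ≠ 0 → ∃ ψ : R →ₐ[ℂ] ℂ, ψ b ≠ 0) →
    ∀ ψ₀ : R →ₐ[ℂ] ℂ, LinearIndependent ℂ (fun g : G =>
      row H (gt (κ g) (sp u ψ₀) (α g)) (α g)) →
    ∀ A : Set (Fin k × Fin N → ℂˣ), Subvariety A → A ⊆ power H k →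
      (∀ ψ : Fin r → (R →ₐ[ℂ] ℂ), om e κ α (fun i => sp u (ψ i)) ∈ A) → ¬ defect A < k

/-- **B** (the transfer). -/
def S_B : Prop :=
  ∀ (N : ℕ) (H : MvPolynomial (Fin N) ℂ), Enc H → (∀ k, FinPts H k) → ZilR

end Pool.Agent.Helper60.ZH
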