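import Pool.Agent.Helper60.ZC.B5
import Pool.Agent.Helper60.ZH.Def

/-!
# No atypical subvariety contains all tuples of points (B5), for hypersurfaces
-/

set_option autoImplicit false

namespace Pool.Agent.Helper60.ZH

open MvPolynomial Pool.Agent.R948 Pool.Agent.N902.OP Pool.Agent.Helper60.ZC

theorem b5_mon_om {N r k : ℕ} {G V : Type} [Fintype G] [Fintype V] (e : Fin k ≃ Fin r × G)
    (κ : G → Fin N → ℂˣ) (α : G → Fin N → V → ℤ) (u' : Fin r → V → ℂˣ) (a : Fin k × Fin N → ℤ) :
    mon (ZH.om e κ α u') a = (∏ g, ∏ j, κ g j ^ ∑ i, a (e.symm (i, g), j)) *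
      ∏ i, mon (u' i) (fun v => ∑ g, ∑ j, a (e.symm (i, g), j) * α g j v) := by
  have h0 : ∀ i, mon (u' i) (fun v => ∑ g, ∑ j, a (e.symm (i, g), j) * α g j v) =
      ∏ g, ∏ j, mon (u' i) (α g j) ^ a (e.symm (i, g), j) := by
    intro i
    have h1 : (fun v => ∑ g, ∑ j, a (e.symm (i, g), j) * α g j v) =
        ∑ g, ∑ j, a (e.symm (i, g), j) • α g j := by
      funext v
      simp [Finset.sum_apply]
    rw [h1, mon_sum_exp]
    refine Finset.prod_congr rfl fun g _ => ?_
    rw [mon_sum_exp]
    simp only [mon_smul]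
  have h1 : mon (ZH.om e κ α u') a =
      ∏ p : Fin r × G, ∏ j, (κ p.2 j * mon (u' p.1) (α p.2 j)) ^ a (e.symm p, j) := by
    rw [mon, Fintype.prod_prod_type]
    refine Fintype.prod_equiv e _ _ fun t => ?_
    refine Finset.prod_congr rfl fun j _ => ?_
    rw [Equiv.symm_apply_apply]
    rfl
  rw [h1, Fintype.prod_prod_type]
  simp only [mul_zpow, Finset.prod_mul_distrib, h0]
  congr 1
  rw [Finset.prod_comm]
  refine Finset.prod_congr rfl fun g _ => ?_
  rw [Finset.prod_comm]
  refine Finset.prod_congr rfl fun j _ => ?_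
  rw [zpow_sum']

/-- the equation of the factor with the number `j` -/
noncomputable def eqn {k N : ℕ} (H : MvPolynomial (Fin N) ℂ) (j : Fin k) :
    MvPolynomial (Fin k × Fin N) ℂ := rename (fun s => (j, s)) H

theorem pair_inj {k N : ℕ} (j : Fin k) : Function.Injective (fun s : Fin N => (j, s)) :=
  fun _ _ h => (Prod.mk.inj h).2

theorem aeval_eqn {k N : ℕ} (H : MvPolynomial (Fin N) ℂ) (j : Fin k) (ω : Fin k × Fin N → ℂˣ) :
    aeval (un ω) (eqn H j) = hw H (fun s => ω (j, s)) := by
  rw [eqn, hw, aeval_rename]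
  rfl

theorem pderiv_eqn {k N : ℕ} (H : MvPolynomial (Fin N) ℂ) (j : Fin k) (t : Fin k × Fin N) :
    pderiv t (eqn H j) = if t.1 = j then eqn (pderiv t.2 H) j else 0 := by
  classical
  obtain ⟨j', s⟩ := t
  split_ifs with h
  · obtain rfl : j' = j := h
    exact pderiv_rename (pair_inj j') s H
  · refine pderiv_eq_zero_of_notMem_vars fun hm => ?_
    obtain ⟨i, -, hi⟩ := Finset.mem_image.1 (vars_rename (fun s => (j, s)) H hm)
    exact h (Prod.mk.inj hi).1.symm

theorem t_b5 : ZH.S_B5 := by
  classical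
  intro N H R _ _ _ _ V G _ _ u κ α r k e hu hsep ψ₀ hlin A hA hAH hom hdef
  let P : TP ℂ (Fin k × Fin N) := toTP hA
  have hPI : P.I = van A := rfl
  obtain ⟨Λ, hΛ, hΛ1⟩ := exists_lat P.pt
  have hdf : ((N * k : ℕ) : ℤ) < k + dr P.pt + td ℂ (un P.pt) := by
    have h1 := defect_eq hA
    have h2 : (toTP hA).df = (Fintype.card (Fin k × Fin N) : ℤ) - dr P.pt - td ℂ (un P.pt) := rfl
    rw [h2, Fintype.card_prod, Fintype.card_fin, Fintype.card_fin] at h1
    rw [h1] at hdef
    rw [mul_comm N k]
    linarith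
  -- the relations of the generic point hold at all points
  have hrel : ∀ z ∈ A, ∀ a ∈ Λ, mon z a = 1 := by
    intro z hz a ha
    have h1 : (binom 1 a : MvPolynomial (Fin k × Fin N) ℂ) ∈ P.I := by
      rw [binom_mem, hΛ1 a ha, map_one, Units.val_one]
    have h2 : aeval (un z) (binom 1 a : MvPolynomial (Fin k × Fin N) ℂ) = 0 := h1 z hz
    rw [aeval_binom, map_one] at h2
    exact Units.ext h2
  -- they are trivial on the factors
  have hphi : ∀ a ∈ Λ, ∀ i, (fun v => ∑ g, ∑ s, a (e.symm (i, g), s) * α g s v) = 0 := by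
    intro a ha i
    set φ : Fin r → V → ℤ := fun i v => ∑ g, ∑ s, a (e.symm (i, g), s) * α g s v with hφ
    change φ i = 0
    have h1 : ∀ χ : R →ₐ[ℂ] ℂ, mon (sp u χ) (φ i) = mon (sp u ψ₀) (φ i) := by
      intro χ
      have h2 := hrel _ (hom (Function.update (fun _ => ψ₀) i χ)) a ha
      have h3 := hrel _ (hom (fun _ => ψ₀)) a ha
      rw [b5_mon_om] at h2 h3
      have h4 := h2.trans h3.symm
      have h5 := mul_left_cancel h4
      rw [← Finset.mul_prod_erase Finset.univ _ (Finset.mem_univ i),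
        ← Finset.mul_prod_erase Finset.univ (fun i => mon (sp u ψ₀) (φ i)) (Finset.mem_univ i)] at h5
      have h6 : ∏ x ∈ Finset.univ.erase i, mon (sp u (Function.update (fun _ => ψ₀) i χ x)) (φ x) =
          ∏ x ∈ Finset.univ.erase i, mon (sp u ψ₀) (φ x) := by
        refine Finset.prod_congr rfl fun x hx => ?_
        rw [Function.update_of_ne (Finset.mem_erase.1 hx).1]
      rw [Function.update_self] at h5
      have h7 := h6 ▸ h5
      exact mul_right_cancel h7
    refine hu _ ((mon (sp u ψ₀) (φ i) : ℂˣ) : ℂ) ?_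
    by_contra hne
    obtain ⟨χ, hχ⟩ := hsep _ (sub_ne_zero.2 hne)
    apply hχ
    rw [map_sub, AlgHom.commutes, ← mon_sp, h1 χ]
    exact sub_self _
  -- the equations
  let a : Fin (Module.finrank ℤ Λ) → (Fin k × Fin N → ℤ) := fun l => (Module.finBasis ℤ Λ l : _)
  have haΛ : ∀ l, a l ∈ Λ := fun l => (Module.finBasis ℤ Λ l).2
  have hali : LinearIndependent ℤ a :=
    (Module.finBasis ℤ Λ).linearIndependent.map' Λ.subtype (Submodule.ker_subtype Λ)
  let z : Fin k × Fin N → ℂˣ := ZH.om e κ α (fun _ => sp u ψ₀)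
  have hz : z ∈ A := hom fun _ => ψ₀
  let F : Fin k ⊕ Fin (Module.finrank ℤ Λ) → MvPolynomial (Fin k × Fin N) ℂ :=
    Sum.elim (fun j => ZH.eqn H j) (fun l => binom 1 (a l))
  have hF : ∀ p, aeval (un P.pt) (F p) = 0 := by
    rintro (j | l)
    · rw [P.aeval_pt_eq_zero, hPI]
      intro y hy
      rw [ev_eq]
      exact (ZH.aeval_eqn H j y).trans (hAH hy j)
    · change aeval (un P.pt) (binom 1 (a l)) = 0
      rw [aeval_binom, hΛ1 _ (haΛ l), map_one, Units.val_one]
  have hli : LinearIndependent ℂ fun p => fun t => aeval (un z) (pderiv t (F p)) := by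
    rw [Fintype.linearIndependent_iff]
    intro c hc
    have h1 : ∀ t, ∑ j, c (Sum.inl j) * (un z t * aeval (un z) (pderiv t (ZH.eqn H j))) +
        ∑ l, (c (Sum.inr l) * ∏ i, un z i ^ (a l i).toNat) * (a l t : ℂ) = 0 := by
      intro t
      have h2 := congrFun hc t
      rw [Finset.sum_apply, Fintype.sum_sum_type] at h2
      simp only [Pi.smul_apply, smul_eq_mul, Pi.zero_apply] at h2
      have h3 := congrArg (fun x => un z t * x) h2
      simp only [mul_zero, mul_add, Finset.mul_sum] at h3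
      rw [← h3]
      congr 1
      · refine Finset.sum_congr rfl fun j _ => ?_
        change _ = un z t * (c (Sum.inl j) * aeval (un z) (pderiv t (ZH.eqn H j)))
        ring
      · refine Finset.sum_congr rfl fun l _ => ?_
        change _ = un z t * (c (Sum.inr l) * aeval (un z) (pderiv t (binom 1 (a l))))
        rw [mul_assoc, ← grad_binom z (a l) (hrel z hz _ (haΛ l)) t]
        ring
    have h2 : ∀ j s, c (Sum.inl j) * (un z (j, s) * hw (pderiv s H) (fun i => z (j, i))) +
        ∑ l, (c (Sum.inr l) * ∏ i, un z i ^ (a l i).toNat) * (a l (j, s) : ℂ) = 0 := by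
      intro j s
      rw [← h1 (j, s)]
      congr 1
      rw [Finset.sum_eq_single j]
      · rw [pderiv_eqn, if_pos rfl, ZH.aeval_eqn]
      · intro j' _ hj'
        rw [pderiv_eqn, if_neg hj'.symm, map_zero, mul_zero, mul_zero]
      · intro h
        exact absurd (Finset.mem_univ j) h
    -- the coefficients of the equations of the factors
    have h4 : ∀ i g, c (Sum.inl (e.symm (i, g))) = 0 := by
      intro i
      refine Fintype.linearIndependent_iff.1 hlin (fun g => c (Sum.inl (e.symm (i, g)))) ?_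
      funext v
      rw [Finset.sum_apply]
      simp only [Pi.smul_apply, smul_eq_mul, Pi.zero_apply]
      have h5 : ∑ g, ∑ s, (α g s v : ℂ) * (c (Sum.inl (e.symm (i, g))) *
            (un z (e.symm (i, g), s) * hw (pderiv s H) (fun j => z (e.symm (i, g), j))) +
          ∑ l, (c (Sum.inr l) * ∏ i, un z i ^ (a l i).toNat) * (a l (e.symm (i, g), s) : ℂ)) = 0 := by
        refine Finset.sum_eq_zero fun g _ => Finset.sum_eq_zero fun s _ => ?_
        rw [h2, mul_zero]
      have h6 : ∑ g, ∑ s, (α g s v : ℂ) * ∑ l, (c (Sum.inr l) * ∏ i, un z i ^ (a l i).toNat) *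
          (a l (e.symm (i, g), s) : ℂ) = 0 := by
        have h7 : ∀ l, ∑ g, ∑ s, (a l (e.symm (i, g), s) : ℂ) * (α g s v : ℂ) = 0 := by
          intro l
          have h8 := congrFun (hphi (a l) (haΛ l) i) v
          have h9 : ∑ g, ∑ s, a l (e.symm (i, g), s) * α g s v = 0 := h8
          exact_mod_cast h9
        calc _ = ∑ l, (c (Sum.inr l) * ∏ i, un z i ^ (a l i).toNat) *
              ∑ g, ∑ s, (a l (e.symm (i, g), s) : ℂ) * (α g s v : ℂ) := by
              have h8 : ∀ l, (c (Sum.inr l) * ∏ i, un z i ^ (a l i).toNat) *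
                  ∑ g, ∑ s, (a l (e.symm (i, g), s) : ℂ) * (α g s v : ℂ) =
                  ∑ g, ∑ s, (α g s v : ℂ) * ((c (Sum.inr l) * ∏ i, un z i ^ (a l i).toNat) *
                    (a l (e.symm (i, g), s) : ℂ)) := by
                intro l
                rw [Finset.mul_sum]
                refine Finset.sum_congr rfl fun g _ => ?_
                rw [Finset.mul_sum]
                refine Finset.sum_congr rfl fun s _ => ?_
                ring
              simp only [h8]
              conv_rhs => rw [Finset.sum_comm]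
              refine Finset.sum_congr rfl fun g _ => ?_
              conv_rhs => rw [Finset.sum_comm]
              refine Finset.sum_congr rfl fun s _ => ?_
              rw [Finset.mul_sum]
          _ = 0 := by simp [h7]
      have h7 : ∀ g, (fun j => z (e.symm (i, g), j)) = ZH.gt (κ g) (sp u ψ₀) (α g) := by
        intro g
        funext j
        simp [z, ZH.om, ZH.gt]
      have h8 : ∑ g, ∑ s, (α g s v : ℂ) * (c (Sum.inl (e.symm (i, g))) *
            (un z (e.symm (i, g), s) * hw (pderiv s H) (fun j => z (e.symm (i, g), j)))) = 0 := by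
        rw [← h5]
        simp only [mul_add, Finset.sum_add_distrib]
        rw [h6, add_zero]
      rw [← h8]
      refine Finset.sum_congr rfl fun g _ => ?_
      rw [ZH.row, Finset.mul_sum, h7]
      refine Finset.sum_congr rfl fun s _ => ?_
      have h9 : un z (e.symm (i, g), s) = ((ZH.gt (κ g) (sp u ψ₀) (α g) s : ℂˣ) : ℂ) := by
        rw [← h7 g]
        rfl
      rw [h9]
      ring
    have h5 : ∀ j, c (Sum.inl j) = 0 := by
      intro j
      have h6 := h4 (e j).1 (e j).2
      rwa [Prod.mk.eta, Equiv.symm_apply_apply] at h6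
    have h6 : (fun l => c (Sum.inr l) * ∏ i, un z i ^ (a l i).toNat) = 0 := by
      refine li_cast a hali _ fun t => ?_
      have h7 := h1 t
      simp only [h5, zero_mul, Finset.sum_const_zero, zero_add] at h7
      exact h7
    rintro (j | l)
    · exact h5 j
    · have h7 := congrFun h6 l
      rcases mul_eq_zero.1 h7 with h8 | h8
      · exact h8
      · exfalso
        obtain ⟨i, -, hi⟩ := Finset.prod_eq_zero_iff.1 h8
        exact pow_ne_zero _ (z i).ne_zero hi
  have htr : Pool.Agent.W206.CT.TrGe ℂ (un P.pt) (td ℂ (un P.pt)) := by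
    obtain ⟨S, hS, hS2, -⟩ := exists_td ℂ (un P.pt)
    rw [← hS]
    refine ⟨fun i => un P.pt (S.equivFin.symm i), hS2.comp _ S.equivFin.symm.injective, fun i => ?_⟩
    exact IntermediateField.subset_adjoin _ _ ⟨_, rfl⟩
  have h9 := Pool.Agent.W206.CT.E1.gen ℂ (Fin k × Fin N) ℂ P.fld (k + Module.finrank ℤ Λ)
    (td ℂ (un P.pt)) (un z) (un P.pt) (fun g hg => by
      rw [P.aeval_pt_eq_zero] at hg
      exact hg z hz) (fun i => F (finSumFinEquiv.symm i)) (fun i => hF _)
    (hli.comp _ finSumFinEquiv.symm.injective) htr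
  rw [Fintype.card_prod, Fintype.card_fin, Fintype.card_fin, hΛ] at h9
  rw [mul_comm N k] at hdf
  push_cast at hdf
  have h10 : (((k + dr P.pt + td ℂ (un P.pt) : ℕ)) : ℤ) ≤ ((k * N : ℕ) : ℤ) := by
    have h11 : k + dr P.pt + td ℂ (un P.pt) = td ℂ (un P.pt) + (k + dr P.pt) := by ring
    rw [h11]
    exact_mod_cast h9
  push_cast at h10
  linarith

end Pool.Agent.Helper60.ZH
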