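import Pool.Agent.Helper60.ZH.Def
import Pool.Agent.Helper60.ZC.B6
import Pool.Agent.Helper60.ZC.B2
import Pool.Agent.Helper60.ZC.B3

/-!
# Part B for hypersurfaces: the transfer from its ingredients
-/

set_option autoImplicit false

namespace Pool.Agent.Helper60.ZH

open MvPolynomial Pool.Agent.R948 Pool.Agent.Helper60.ZC

section

variable {R S : Type} [CommRing R] [CommRing S] [Algebra ℂ R] [Algebra ℂ S] {N : ℕ}

theorem hw_map (φ : R →ₐ[ℂ] S) (H : MvPolynomial (Fin N) ℂ) (p : Fin N → Rˣ) :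
    φ (hw H p) = hw H (fun j => Units.map (φ : R →* S) (p j)) := by
  rw [hw, hw, comp_aeval_apply]
  rfl

theorem row_map {V : Type} (φ : R →ₐ[ℂ] S) (H : MvPolynomial (Fin N) ℂ) (p : Fin N → Rˣ)
    (α : Fin N → V → ℤ) (v : V) :
    φ (row H p α v) = row H (fun j => Units.map (φ : R →* S) (p j)) α v := by
  rw [row, row, map_sum]
  refine Finset.sum_congr rfl fun j _ => ?_
  rw [map_mul, map_mul, hw_map, map_intCast]
  rfl

/-- a gate over an algebra -/
noncomputable def gR (R : Type) [CommRing R] [Algebra ℂ R] {V : Type} [Fintype V] (κ : Fin N → ℂˣ)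
    (u : V → Rˣ) (α : Fin N → V → ℤ) : Fin N → Rˣ :=
  gt (fun j => cR R (κ j)) u α

theorem gR_map {V : Type} [Fintype V] (φ : R →ₐ[ℂ] S) (κ : Fin N → ℂˣ) (u : V → Rˣ)
    (α : Fin N → V → ℤ) :
    (fun j => Units.map (φ : R →* S) (gR R κ u α j)) =
      gR S κ (fun v => Units.map (φ : R →* S) (u v)) α := by
  funext j
  rw [gR, gR, gt, gt, map_mul, map_cR, map_mon]

theorem gR_self {V : Type} [Fintype V] (κ : Fin N → ℂˣ) (u : V → ℂˣ) (α : Fin N → V → ℤ) :
    gR ℂ κ u α = gt κ u α := by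
  funext j
  rw [gR, gt, gt, cR_self]

theorem gR_sp {V : Type} [Fintype V] (ψ : R →ₐ[ℂ] ℂ) (κ : Fin N → ℂˣ) (u : V → Rˣ)
    (α : Fin N → V → ℤ) :
    (fun j => Units.map (ψ : R →* ℂ) (gR R κ u α j)) = gt κ (sp u ψ) α := by
  rw [gR_map, gR_self]
  rfl

end

/-- the coordinates of the points of the power -/
theorem om_coord {N : ℕ} {R G V : Type} [CommRing R] [Algebra ℂ R] [Fintype V] [DecidableEq G]
    {r k : ℕ} (e : Fin k ≃ Fin r × G) (κ : G → Fin N → ℂˣ) (α : G → Fin N → V → ℤ) (u : V → Rˣ)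
    (ψ : Fin r → (R →ₐ[ℂ] ℂ)) (i : Fin r) (t : Fin k × Fin N) :
    ∃ b : R, ∀ χ : R →ₐ[ℂ] ℂ,
      ((om e κ α (fun l => sp u (Function.update ψ i χ l)) t : ℂˣ) : ℂ) = χ b := by
  obtain ⟨j, l⟩ := t
  by_cases h : (e j).1 = i
  · refine ⟨((cR R (κ (e j).2 l) * mon u (α (e j).2 l) : Rˣ) : R), fun χ => ?_⟩
    change ((κ (e j).2 l * mon (sp u (Function.update ψ i χ (e j).1)) (α (e j).2 l) : ℂˣ) : ℂ) = _
    rw [h, Function.update_self, sp_mon_val]
  · refine ⟨algebraMap ℂ R ((κ (e j).2 l * mon (sp u (ψ (e j).1)) (α (e j).2 l) : ℂˣ) : ℂ),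
      fun χ => ?_⟩
    change ((κ (e j).2 l * mon (sp u (Function.update ψ i χ (e j).1)) (α (e j).2 l) : ℂˣ) : ℂ) = _
    rw [Function.update_of_ne h, AlgHom.commutes]
    rfl

/-- **the transfer** -/
theorem t_b (h4 : S_B4) (h5 : S_B5) : S_B := by
  classical
  have h2 := t_b2
  have h3 := t_b3
  intro N H hE hF n Y hY hd
  by_contra hno
  push Not at hno
  obtain ⟨L, _, _, _, z, hz, halg, htd⟩ := exists_gen hY
  obtain ⟨I, hI, -, hI2⟩ := exists_td ℂ (un z)
  obtain ⟨V, _, G₀, _, u, c, η, κ₀, α₀, hind, hzu, hgate₀, hdet₀⟩ := hE L n z I hI2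
  -- independent gates
  let ρ₀ : G₀ → V → L := fun g => row H (gt (fun j => cst L (κ₀ g j)) u (α₀ g)) (α₀ g)
  obtain ⟨G, s, hs, hspan, hli⟩ := exists_linearIndependent' L ρ₀
  have : Finite G := Finite.of_injective s hs
  have : Fintype G := Fintype.ofFinite G
  have hcard : Fintype.card V ≤ Fintype.card G + vdim Y := by
    let T : (V → L) →ₗ[L] ((G → L) × (I → L)) :=
      LinearMap.prod
        (LinearMap.pi fun g => ∑ v, ρ₀ (s g) v • (LinearMap.proj v : (V → L) →ₗ[L] L))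
        (LinearMap.pi fun i => ∑ v, (η i v : L) • (LinearMap.proj v : (V → L) →ₗ[L] L))
    have hT : Function.Injective T := by
      rw [injective_iff_map_eq_zero]
      intro δ hδ
      have e1 : ∀ g, ∑ v, ρ₀ (s g) v * δ v = 0 := by
        intro g
        have := congrFun (congrArg Prod.fst hδ) g
        simpa [T] using this
      have e2 : ∀ i ∈ I, ∑ v, (η i v : L) * δ v = 0 := by
        intro i hi
        have := congrFun (congrArg Prod.snd hδ) ⟨i, hi⟩
        simpa [T] using this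
      refine hdet₀ δ (fun g => ?_) e2
      have e3 : ρ₀ g ∈ Submodule.span L (Set.range (ρ₀ ∘ s)) := by
        rw [hspan]
        exact Submodule.subset_span ⟨g, rfl⟩
      change ∑ v, ρ₀ g v * δ v = 0
      refine Submodule.span_induction (p := fun x _ => ∑ v, x v * δ v = 0) ?_ ?_ ?_ ?_ e3
      · rintro _ ⟨g', rfl⟩
        exact e1 g'
      · simp
      · intro x y _ _ hx hy
        simp only [Pi.add_apply, add_mul, Finset.sum_add_distrib, hx, hy, add_zero]
      · intro a x _ hx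
        simp only [Pi.smul_apply, smul_eq_mul, mul_assoc, ← Finset.mul_sum, hx, mul_zero]
    have h6 := LinearMap.finrank_le_finrank_of_injective hT
    rw [Module.finrank_prod, Module.finrank_pi, Module.finrank_pi, Module.finrank_pi,
      Fintype.card_coe, hI, htd] at h6
    exact h6
  let κ : G → Fin N → ℂˣ := fun g => κ₀ (s g)
  let α : G → Fin N → V → ℤ := fun g => α₀ (s g)
  -- the ring
  let gens : Set L := Set.range (fun v => (u v : L)) ∪ Set.range (fun v => ((u v)⁻¹ : L))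
  let R : Subalgebra ℂ L := Algebra.adjoin ℂ gens
  have hgens : gens.Finite := (Set.finite_range _).union (Set.finite_range _)
  have hft : Algebra.FiniteType ℂ R :=
    (Subalgebra.fg_iff_finiteType R).1 (by
      have e1 := Subalgebra.fg_adjoin_finset (R := ℂ) hgens.toFinset
      rwa [Set.Finite.coe_toFinset] at e1)
  have hu1 : ∀ v, (u v : L) ∈ R := fun v => Algebra.subset_adjoin (Or.inl ⟨v, rfl⟩)
  have hu2 : ∀ v, ((u v)⁻¹ : L) ∈ R := fun v => Algebra.subset_adjoin (Or.inr ⟨v, rfl⟩)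
  let uR : V → Rˣ := fun v => ⟨⟨u v, hu1 v⟩, ⟨(u v)⁻¹, hu2 v⟩,
    Subtype.ext (mul_inv_cancel₀ (u v).ne_zero), Subtype.ext (inv_mul_cancel₀ (u v).ne_zero)⟩
  have huR : ∀ v, Units.map (R.val : R →* L) (uR v) = u v := fun v => Units.ext rfl
  have hmon : ∀ (a : ℂˣ) (b : V → ℤ), ((((cR R a * mon uR b : Rˣ) : R)) : L) =
      ((cst L a * mon u b : Lˣ) : L) := by
    intro a b
    have e1 : Units.map (R.val : R →* L) (cR R a * mon uR b) = cst L a * mon u b := by
      rw [map_mul, map_mon, map_cR]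
      have e2 : (fun v => Units.map (R.val : R →* L) (uR v)) = u := funext huR
      rw [e2]
      rfl
    exact congrArg Units.val e1
  let zR : Fin n → Rˣ := fun j => cR R (c j) * mon uR (η j)
  have hzR : ∀ j, ((zR j : R) : L) = z j := by
    intro j
    rw [hzu j]
    exact hmon _ _
  have hzRf : ∀ f : MvPolynomial (Fin n) ℂ, ((aeval (fun i => (zR i : R)) f : R) : L) =
      aeval (un z) f := by
    intro f
    have e1 : (R.val : R →ₐ[ℂ] L) (aeval (fun i => (zR i : R)) f) =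
        aeval (fun i => ((zR i : R) : L)) f := by
      rw [comp_aeval_apply]
      rfl
    have e2 : (fun i => ((zR i : R) : L)) = un z := funext hzR
    rw [← e2]
    exact e1
  have halgR : ∀ x : R, IsAlgebraic (Algebra.adjoin ℂ (Set.range fun i => (zR i : R))) x :=
    alg_descend R (fun i => (zR i : R)) (un z) hzRf halg
  have hdense : ∀ b : R, b ≠ 0 → ∃ ψ ∈ {ψ : R →ₐ[ℂ] ℂ | vdim Y + 1 ≤ dr (sp zR ψ)}, ψ b ≠ 0 := by
    intro b hb
    obtain ⟨ψ, h6, h7⟩ := exists_low h2 (vdim Y + 1) hd R zR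
      (fun f hf => by rw [← hz, ← hzRf, hf]; rfl)
      (fun f hf => by
        apply Subtype.ext
        rw [hzRf, (hz f).2 hf]
        rfl) halgR b hb
    exact ⟨ψ, h6, h7⟩
  -- the gates over `R`
  have huR' : (fun v => Units.map (R.val : R →* L) (uR v)) = u := funext huR
  have hgL : ∀ g, (fun j => Units.map (R.val : R →* L) (gR R (κ g) uR (α g) j)) =
      gt (fun j => cst L (κ g j)) u (α g) := by
    intro g
    rw [gR_map, huR']
    rfl
  have hgateR : ∀ g, hw H (gR R (κ g) uR (α g)) = 0 := by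
    intro g
    apply Subtype.ext
    change R.val (hw H _) = _
    rw [hw_map, hgL]
    exact hgate₀ (s g)
  obtain ⟨b, hb, hrows⟩ := exists_rows (R := R) (L := L)
    (fun g : G => row H (gR R (κ g) uR (α g)) (α g)) (by
      have e1 : (fun g : G => fun v => algebraMap R L (row H (gR R (κ g) uR (α g)) (α g) v)) =
          ρ₀ ∘ s := by
        funext g v
        change R.val (row H _ _ v) = _
        rw [row_map, hgL]
        rfl
      rw [e1]
      exact hli)
  obtain ⟨ψ₀, -, hψ₀⟩ := hdense b hb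
  have hrow := hrows ψ₀ hψ₀
  -- the parameters
  let r : ℕ := N * Fintype.card G + n + 1
  let k : ℕ := Fintype.card (Fin r × G)
  let e : Fin k ≃ Fin r × G := (Fintype.equivFin (Fin r × G)).symm
  obtain ⟨𝒜, h𝒜, hA, hcov⟩ := hF k
  have hindR : ∀ (a : V → ℤ) (x : ℂ), ((mon uR a : Rˣ) : R) = algebraMap ℂ R x → a = 0 := by
    intro a x hx
    have hx0 : x ≠ 0 := by
      rintro rfl
      rw [map_zero] at hx
      exact (mon uR a).ne_zero hx
    refine hind a (Units.mk0 x hx0) (Units.ext ?_)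
    have e1 := hmon 1 a
    have e2 : cR R 1 = 1 := map_one _
    rw [e2, one_mul, cst_one', one_mul, hx] at e1
    exact e1.symm
  have hpow : ∀ ψ : Fin r → (R →ₐ[ℂ] ℂ), om e κ α (fun i => sp uR (ψ i)) ∈ power H k := by
    intro ψ j
    change hw H (gt (κ (e j).2) (sp uR (ψ (e j).1)) (α (e j).2)) = 0
    rw [← gR_sp, ← hw_map, hgateR, map_zero]
  by_cases hall : ∃ A ∈ 𝒜, ∀ ψ : Fin r → (R →ₐ[ℂ] ℂ), om e κ α (fun i => sp uR (ψ i)) ∈ A
  · obtain ⟨A, hA1, hA2⟩ := hall
    obtain ⟨hA3, hA4, hA5⟩ := hA A hA1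
    refine h5 N H R V G uR κ α r k e hindR (fun b hb => ?_) ψ₀ ?_ A hA3 hA4 hA2 hA5
    · obtain ⟨ψ, -, h6⟩ := hdense b hb
      exact ⟨ψ, h6⟩
    · have e1 : (fun g : G => row H (gt (κ g) (sp uR ψ₀) (α g)) (α g)) = fun g : G => fun v =>
          ψ₀ (row H (gR R (κ g) uR (α g)) (α g) v) := by
        funext g v
        rw [row_map, gR_sp]
      rw [e1]
      exact hrow
  · push Not at hall
    have hf0 : ∀ A : 𝒜, ∃ f ∈ van (A : Set (Fin k × Fin N → ℂˣ)), ∃ ψ : Fin r → (R →ₐ[ℂ] ℂ),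
        MvPolynomial.eval (fun t => ((om e κ α (fun i => sp uR (ψ i)) t : ℂˣ) : ℂ)) f ≠ 0 := by
      rintro ⟨A, hA1⟩
      obtain ⟨ψ, hψ⟩ := hall A hA1
      rw [← (hA A hA1).1.closed.eq] at hψ
      simp only [zeros, Set.mem_ofPred_eq, not_forall] at hψ
      obtain ⟨f, hf, hf2⟩ := hψ
      exact ⟨f, hf, ψ, hf2⟩
    choose f hf hf2 using hf0
    have : Finite 𝒜 := h𝒜.to_subtype
    have : Fintype 𝒜 := Fintype.ofFinite 𝒜
    obtain ⟨ψ, hψ1, hψ2⟩ := h3 R {ψ : R →ₐ[ℂ] ℂ | vdim Y + 1 ≤ dr (sp zR ψ)} hdense r 𝒜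
      (fun A ψ => MvPolynomial.eval
        (fun t => ((om e κ α (fun i => sp uR (ψ i)) t : ℂˣ) : ℂ)) (f A)) (by
        intro A ψ i
        choose b hb using om_coord e κ α uR ψ i
        refine ⟨aeval b (f A), fun χ => ?_⟩
        rw [comp_aeval_apply]
        have e1 : (fun t => ((om e κ α
            (fun l => sp uR (Function.update ψ i χ l)) t : ℂˣ) : ℂ)) = fun t => χ (b t) :=
          funext fun t => hb t χ
        rw [e1]
        rfl) hf2
    have hrank := h4 N r n (vdim Y) k G V e α η κ c (fun i => sp uR (ψ i))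
      (fun i => sp zR (ψ i)) hcard (by omega) (fun i j => ?_) hψ1 (fun a ha ha2 => ?_)
    · obtain ⟨A, hA1, hA2⟩ := hcov _ (hpow ψ) hrank
      exact hψ2 ⟨A, hA1⟩ (hf ⟨A, hA1⟩ _ hA2)
    · rw [sp_mon]
      rfl
    · by_contra ha0
      obtain ⟨x, hxY, hx⟩ := hno a ha0
      apply hx
      have e1 : mon z a = 1 := by
        have e2 : mon z a = cst L (mon c a) * mon u (fun v => ∑ j, a j * η j v) :=
          mon_subst z u c η hzu a
        rw [e2, ha2, cst_one', one_mul]
        have e3 : (fun v => ∑ j, a j * η j v) = 0 := funext ha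
        rw [e3, mon_zero]
      have e4 : (binom 1 a : MvPolynomial (Fin n) ℂ) ∈ van Y := by
        rw [← hz, aeval_binom, e1, map_one, Units.val_one]
      have e5 := e4 x hxY
      rw [ev_eq, aeval_binom, map_one] at e5
      exact Units.ext e5

end Pool.Agent.Helper60.ZH
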