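import Pool.Agent.Helper60.ZH.Def
import Pool.Agent.Helper60.ZC.P0

/-!
# Hypersurfaces which are not cosets: the statements of two parts
-/

set_option autoImplicit false

namespace Pool.Agent.Helper60.ZH

open MvPolynomial Pool.Agent.R948 Pool.Agent.Helper60.ZC

/-- **NBT**: an irreducible hypersurface which is not contained in a coset of a proper subgroup has a
point where two logarithmic derivatives of the equation are independent over the integers. -/
def S_NBT : Prop :=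
  ∀ (N : ℕ) (H : MvPolynomial (Fin N) ℂ), Irreducible H →
    (∀ a : Fin N → ℤ, a ≠ 0 → ∀ c : ℂˣ, ∃ z : Fin N → ℂˣ, hw H z = 0 ∧ mon z a ≠ c) →
    ∃ (z : Fin N → ℂˣ) (i j : Fin N), hw H z = 0 ∧ ∀ a b : ℤ, (a ≠ 0 ∨ b ≠ 0) →
      (a : ℂ) * (z i * hw (pderiv i H) z) + b * (z j * hw (pderiv j H) z) ≠ 0

/-- **SLC**: lifting of a smooth point of a plane slice. -/
def S_SLC : Prop :=
  ∀ (N : ℕ) (H : MvPolynomial (Fin N) ℂ) (c : Fin N → ℂˣ) (i j : Fin N), i ≠ j → hw H c = 0 →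
    hw (pderiv j H) c ≠ 0 →
    ∀ (K : Type) [Field K] [Algebra ℂ K] [IsAlgClosed K] (P : Plc K) (x : Kˣ), P.R (x : K) (c i) →
      ∃ p : Fin N → Kˣ, hw H p = 0 ∧ p i = x ∧ (∀ l, l ≠ i → l ≠ j → p l = cst K (c l)) ∧
        P.R (p j : K) (c j)

end Pool.Agent.Helper60.ZH
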