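import Mathlib

/-!
# Points outside countably many hypersurfaces, over the complex numbers (helper47)
-/

set_option autoImplicit false

namespace Pool.Agent.Helper60.ZH

open MvPolynomial

/-- a field of countable dimension over `ℂ` is `ℂ` -/
theorem bij_of_countable (κ : Type) [Field κ] [Algebra ℂ κ]
    (h : Module.rank ℂ κ ≤ Cardinal.aleph0) : Function.Bijective (algebraMap ℂ κ) := by
  have halg : Algebra.IsAlgebraic ℂ κ := by
    constructor
    intro x
    by_contra hx
    have h1 := (Transcendental.linearIndependent_sub_inv hx).cardinal_le_rank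
    have h2 : Cardinal.aleph0 < Cardinal.mk ℂ := by
      rw [Cardinal.mk_complex]
      exact Cardinal.aleph0_lt_continuum
    exact absurd (h1.trans h) (not_le.2 h2)
  exact IsAlgClosed.algebraMap_bijective_of_isIntegral

/-- the field of fractions of the coordinate ring -/
theorem exists_field {σ : Type} (P : Ideal (MvPolynomial σ ℂ)) [P.IsPrime] :
    ∃ (F : Type) (_ : Field F) (_ : Algebra ℂ F) (q : MvPolynomial σ ℂ →ₐ[ℂ] F),
      ∀ f, q f = 0 ↔ f ∈ P := by
  let A := MvPolynomial σ ℂ ⧸ P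
  let F := FractionRing A
  let q : MvPolynomial σ ℂ →ₐ[ℂ] F := (Algebra.algHom ℂ A F).comp (Ideal.Quotient.mkₐ ℂ P)
  have hinj : Function.Injective (algebraMap A F) := IsFractionRing.injective A F
  refine ⟨F, inferInstance, inferInstance, q, fun f => ?_⟩
  have h1 : q f = algebraMap A F (Ideal.Quotient.mk P f) := rfl
  rw [h1]
  constructor
  · intro h
    exact Ideal.Quotient.eq_zero_iff_mem.1 (hinj (h.trans (map_zero _).symm))
  · intro h
    rw [Ideal.Quotient.eq_zero_iff_mem.2 h, map_zero]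

/-- **Avoidance**: a point of the zero set of a prime ideal outside countably many hypersurfaces. -/
theorem exists_avoid {σ ι : Type} [Countable σ] [Countable ι] (P : Ideal (MvPolynomial σ ℂ))
    [P.IsPrime] (R : ι → MvPolynomial σ ℂ) (hR : ∀ i, R i ∉ P) :
    ∃ z : σ → ℂ, (∀ f ∈ P, aeval z f = 0) ∧ ∀ i, aeval z (R i) ≠ 0 := by
  classical
  obtain ⟨F, _, _, q, hq⟩ := exists_field P
  let φ : MvPolynomial (σ ⊕ ι) ℂ →ₐ[ℂ] F :=
    aeval (Sum.elim (fun l => q (X l)) fun i => (q (R i))⁻¹)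
  have hφ : ∀ f : MvPolynomial σ ℂ, φ (rename Sum.inl f) = q f := by
    intro f
    change aeval _ (rename Sum.inl f) = _
    rw [aeval_rename]
    have h1 : (Sum.elim (fun l => q (X l)) fun i => (q (R i))⁻¹) ∘ Sum.inl = fun l => q (X l) := rfl
    rw [h1]
    have h2 := aeval_unique q
    exact (congrArg (fun g => g f) h2).symm
  have hker : RingHom.ker φ ≠ ⊤ := RingHom.ker_ne_top _
  obtain ⟨M, hM, hle⟩ := Ideal.exists_le_maximal _ hker
  let _ : Field (MvPolynomial (σ ⊕ ι) ℂ ⧸ M) := Ideal.Quotient.field M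
  let κ := MvPolynomial (σ ⊕ ι) ℂ ⧸ M
  let π : MvPolynomial (σ ⊕ ι) ℂ →ₐ[ℂ] κ := Ideal.Quotient.mkₐ ℂ M
  have hrank : Module.rank ℂ κ ≤ Cardinal.aleph0 := by
    have h1 : Module.rank ℂ κ ≤ Module.rank ℂ (MvPolynomial (σ ⊕ ι) ℂ) :=
      LinearMap.rank_le_of_surjective π.toLinearMap (Ideal.Quotient.mkₐ_surjective ℂ M)
    refine h1.trans ?_
    have h2 := (basisMonomials (σ ⊕ ι) ℂ).mk_eq_rank''
    rw [← h2]
    exact Cardinal.mk_le_aleph0
  have hbij := bij_of_countable κ hrank
  let e : ℂ ≃ₐ[ℂ] κ := AlgEquiv.ofBijective (Algebra.ofId ℂ κ) hbij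
  let ψ : MvPolynomial (σ ⊕ ι) ℂ →ₐ[ℂ] ℂ := e.symm.toAlgHom.comp π
  have hψ : ∀ f, f ∈ RingHom.ker φ → ψ f = 0 := by
    intro f hf
    have h1 : π f = 0 := Ideal.Quotient.eq_zero_iff_mem.2 (hle hf)
    change e.symm (π f) = 0
    rw [h1, map_zero]
  have hz : ∀ f : MvPolynomial σ ℂ, aeval (fun l => ψ (X (Sum.inl l))) f = ψ (rename Sum.inl f) := by
    intro f
    have h1 := aeval_unique (ψ.comp (rename Sum.inl))
    have h2 := congrArg (fun g => g f) h1
    change ψ (rename Sum.inl f) = _ at h2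
    rw [h2]
    congr 2
    funext l
    change _ = ψ (rename Sum.inl (X l))
    rw [rename_X]
  refine ⟨fun l => ψ (X (Sum.inl l)), fun f hf => ?_, fun i => ?_⟩
  · rw [hz]
    apply hψ
    rw [RingHom.mem_ker]

    rw [hφ]
    exact (hq f).2 hf
  · rw [hz]
    intro h0
    have hne : q (R i) ≠ 0 := fun h => hR i ((hq _).1 h)
    have h1 : ψ (rename Sum.inl (R i) * X (Sum.inr i) - 1) = 0 := by
      apply hψ
      rw [RingHom.mem_ker]

      rw [map_sub, map_mul, map_one, hφ]
      change q (R i) * aeval _ (X (Sum.inr i)) - 1 = 0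
      rw [aeval_X]
      change q (R i) * (q (R i))⁻¹ - 1 = 0
      rw [mul_inv_cancel₀ hne, sub_self]
    rw [map_sub, map_mul, map_one, h0, zero_mul, zero_sub] at h1
    exact one_ne_zero (neg_eq_zero.1 h1)

end Pool.Agent.Helper60.ZH
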