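import Pool.Agent.Helper60.ZH.Def2
import Pool.Agent.Helper60.ZH.NBT1

/-!
# The logarithmic gradient of an irreducible hypersurface which is not a coset (helper47)
-/

set_option autoImplicit false

namespace Pool.Agent.Helper60.ZH

open MvPolynomial Pool.Agent.R948 Pool.Agent.Helper60.ZC

section

variable {N : ℕ}

/-- an integral vector is a multiple of a primitive one -/
theorem exists_prim (v : Fin N → ℤ) (hv : v ≠ 0) : ∃ (g : ℤ) (w s : Fin N → ℤ), g ≠ 0 ∧
    (∀ l, v l = g * w l) ∧ ∑ l, s l * w l = 1 := by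
  obtain ⟨g, hg⟩ := (inferInstance : (Ideal.span (Set.range v)).IsPrincipal).principal
  have h1 : ∀ l, g ∣ v l := by
    intro l
    have h2 : v l ∈ Ideal.span (Set.range v) := Ideal.subset_span ⟨l, rfl⟩
    rw [hg] at h2
    exact Ideal.mem_span_singleton.1 h2
  have h3 : g ∈ Ideal.span (Set.range v) := by
    rw [hg]
    exact Ideal.mem_span_singleton_self g
  obtain ⟨s, hs⟩ := Ideal.mem_span_range_iff_exists_fun.1 h3
  choose w hw using h1
  have hg0 : g ≠ 0 := by
    rintro rfl
    apply hv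
    funext l
    rw [hw l, zero_mul]
    rfl
  refine ⟨g, w, s, hg0, hw, ?_⟩
  apply mul_left_cancel₀ hg0
  rw [mul_one, Finset.mul_sum]
  refine (Finset.sum_congr rfl fun l _ => ?_).trans hs
  rw [hw l]
  ring

theorem mon_split {G : Type} [CommGroup G] (z : Fin N → G) (w : Fin N → ℤ) :
    mon z w * ∏ l, z l ^ (-w l).toNat = ∏ l, z l ^ (w l).toNat := by
  unfold mon
  rw [← Finset.prod_mul_distrib]
  refine Finset.prod_congr rfl fun l _ => ?_
  rw [← zpow_natCast, ← zpow_natCast, ← zpow_add]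
  congr 1
  omega

theorem coeff_log (H : MvPolynomial (Fin N) ℂ) (i : Fin N) (m : Fin N →₀ ℕ) :
    coeff m (X i * pderiv i H) = (m i : ℂ) * coeff m H := by
  classical
  induction H using MvPolynomial.induction_on' with
  | monomial u a =>
    rw [X_mul_pderiv_monomial, coeff_smul, coeff_monomial, nsmul_eq_mul]
    by_cases h : u = m
    · rw [if_pos h, h]
    · rw [if_neg h, mul_zero, mul_zero]
  | add p q hp hq =>
    rw [map_add, mul_add, coeff_add, hp, hq, coeff_add, mul_add]

/-- a polynomial with a smaller support which is divisible by `H` is a constant multiple of `H` -/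
theorem const_mul_of_dvd (H R : MvPolynomial (Fin N) ℂ) (hH : H ≠ 0) (hs : R.support ⊆ H.support)
    (hd : H ∣ R) : ∃ c : ℂ, R = C c * H := by
  obtain ⟨Q, hQ⟩ := hd
  by_cases hR : R = 0
  · exact ⟨0, by rw [hR, map_zero, zero_mul]⟩
  · have hQ0 : Q ≠ 0 := by
      rintro rfl
      exact hR (by rw [hQ, mul_zero])
    have h1 : R.totalDegree ≤ H.totalDegree := by
      unfold totalDegree
      exact Finset.sup_mono hs
    rw [hQ, totalDegree_mul_of_isDomain hH hQ0] at h1
    have h2 : Q.totalDegree = 0 := by omega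
    rw [totalDegree_eq_zero_iff_eq_C] at h2
    exact ⟨coeff 0 Q, by rw [hQ, ← h2, mul_comm]⟩

theorem t_nbt : S_NBT := by
  classical
  intro N H hirr hNC
  by_contra hcon
  push Not at hcon
  have hprime : Prime H := hirr.prime
  have hH0 : H ≠ 0 := hirr.ne_zero
  have hP : (Ideal.span {H}).IsPrime := (Ideal.span_singleton_prime hH0).2 hprime
  -- the torus zeros
  have hN : ∃ l : Fin N, True := by
    by_contra h
    push Not at h
    have : IsEmpty (Fin N) := ⟨fun l => (h l).elim⟩
    have h1 := eq_C_of_isEmpty H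
    apply hirr.not_isUnit
    rw [h1]
    refine (isUnit_iff_ne_zero.2 fun h0 => hH0 ?_).map C
    rw [h1, h0, map_zero]
  obtain ⟨l₀, -⟩ := hN
  obtain ⟨z₀, hz₀, -⟩ := hNC (Pi.single l₀ 1) (by
    intro h
    have := congrFun h l₀
    rw [Pi.single_eq_same] at this
    exact one_ne_zero this) 1
  have hX : ∀ l, ¬ H ∣ X l := by
    rintro l ⟨Q, hQ⟩
    have h1 := congrArg (aeval fun j => (z₀ j : ℂ)) hQ
    rw [map_mul, aeval_X] at h1
    have h2 : aeval (fun j => (z₀ j : ℂ)) H = 0 := hz₀
    rw [h2, zero_mul] at h1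
    exact (z₀ l).ne_zero h1
  -- step 1
  have hdiv : ∀ i j : Fin N, ∃ a b : ℤ, (a ≠ 0 ∨ b ≠ 0) ∧
      H ∣ C (a : ℂ) * (X i * pderiv i H) + C (b : ℂ) * (X j * pderiv j H) := by
    intro i j
    by_contra hno
    push Not at hno
    let ι := {ab : ℤ × ℤ // ab.1 ≠ 0 ∨ ab.2 ≠ 0} ⊕ Fin N
    let R : ι → MvPolynomial (Fin N) ℂ := Sum.elim
      (fun ab => C (ab.1.1 : ℂ) * (X i * pderiv i H) + C (ab.1.2 : ℂ) * (X j * pderiv j H))
      (fun l => X l)
    obtain ⟨z, hz, hzR⟩ := exists_avoid (Ideal.span {H}) R (by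
      rintro (ab | l)
      · rw [Ideal.mem_span_singleton]
        exact hno ab.1.1 ab.1.2 ab.2
      · rw [Ideal.mem_span_singleton]
        exact hX l)
    have hz0 : ∀ l, z l ≠ 0 := by
      intro l
      have := hzR (Sum.inr l)
      change aeval z (X l) ≠ 0 at this
      rwa [aeval_X] at this
    have hHz : aeval z H = 0 := hz H (Ideal.mem_span_singleton_self H)
    obtain ⟨a, b, hab, h0⟩ := hcon (fun l => Units.mk0 (z l) (hz0 l)) i j hHz
    apply hzR (Sum.inl ⟨(a, b), hab⟩)
    change aeval z (C (a : ℂ) * (X i * pderiv i H) + C (b : ℂ) * (X j * pderiv j H)) = 0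
    rw [map_add, map_mul, map_mul, map_mul, map_mul, aeval_X, aeval_X, aeval_C, aeval_C]
    exact h0
  -- step 2
  have hlin : ∀ i j : Fin N, ∃ a b : ℤ, (a ≠ 0 ∨ b ≠ 0) ∧
      ∃ c : ℂ, ∀ m ∈ H.support, (a : ℂ) * (m i : ℂ) + b * (m j : ℂ) = c := by
    intro i j
    obtain ⟨a, b, hab, hd⟩ := hdiv i j
    have hco : ∀ m, coeff m (C (a : ℂ) * (X i * pderiv i H) + C (b : ℂ) * (X j * pderiv j H)) =
        ((a : ℂ) * (m i : ℂ) + b * (m j : ℂ)) * coeff m H := by
      intro m
      rw [coeff_add, coeff_C_mul, coeff_C_mul, coeff_log, coeff_log]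
      ring
    obtain ⟨c, hc⟩ := const_mul_of_dvd H _ hH0 (fun m hm => by
      rw [mem_support_iff, hco] at hm
      rw [mem_support_iff]
      exact right_ne_zero_of_mul hm) hd
    refine ⟨a, b, hab, c, fun m hm => ?_⟩
    have h1 := congrArg (coeff m) hc
    rw [hco, coeff_C_mul] at h1
    exact mul_right_cancel₀ (mem_support_iff.1 hm) h1
  -- two exponents
  obtain ⟨m₀, hm₀⟩ : ∃ m₀, m₀ ∈ H.support := by
    obtain ⟨m, hm⟩ := ne_zero_iff.1 hH0
    exact ⟨m, mem_support_iff.2 hm⟩
  obtain ⟨m₁, hm₁, hm01⟩ : ∃ m₁ ∈ H.support, m₁ ≠ m₀ := by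
    by_contra hno
    push Not at hno
    have h1 : aeval (fun j => (z₀ j : ℂ)) H = 0 := hz₀
    rw [aeval_def, eval₂_eq', Finset.sum_eq_single m₀ (fun m hm hne => absurd (hno m hm) hne)
      (fun h => absurd hm₀ h)] at h1
    rcases mul_eq_zero.1 h1 with h2 | h2
    · exact (mem_support_iff.1 hm₀) h2
    · rw [Finset.prod_eq_zero_iff] at h2
      obtain ⟨l, _, hl⟩ := h2
      exact pow_ne_zero _ (z₀ l).ne_zero hl
  -- step 3: the differences
  let v : (Fin N →₀ ℕ) → Fin N → ℤ := fun m l => (m l : ℤ) - (m₀ l : ℤ)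
  have hrel : ∀ i j : Fin N, ∃ a b : ℤ, (a ≠ 0 ∨ b ≠ 0) ∧
      ∀ m ∈ H.support, a * v m i + b * v m j = 0 := by
    intro i j
    obtain ⟨a, b, hab, c, hc⟩ := hlin i j
    refine ⟨a, b, hab, fun m hm => ?_⟩
    have h1 : ((a * v m i + b * v m j : ℤ) : ℂ) = 0 := by
      simp only [v]
      push_cast
      linear_combination hc m hm - hc m₀ hm₀
    exact_mod_cast h1
  have hminor : ∀ m ∈ H.support, ∀ i j, v m i * v m₁ j = v m j * v m₁ i := by
    intro m hm i j
    obtain ⟨a, b, hab, h⟩ := hrel i j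
    have h1 := h m hm
    have h2 := h m₁ hm₁
    rcases hab with ha | hb
    · apply mul_left_cancel₀ ha
      linear_combination v m₁ j * h1 - v m j * h2
    · apply mul_left_cancel₀ hb
      linear_combination v m i * h2 - v m₁ i * h1
  have hv1 : v m₁ ≠ 0 := by
    intro h
    apply hm01
    ext l
    have h1 := congrFun h l
    simp only [v, Pi.zero_apply] at h1
    omega
  obtain ⟨g, w, s, hg, hw', hs⟩ := exists_prim (v m₁) hv1
  obtain ⟨k, hk⟩ : ∃ k : (Fin N →₀ ℕ) → ℤ, ∀ m ∈ H.support, ∀ l, v m l = k m * w l := by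
    refine ⟨fun m => ∑ l, s l * v m l, fun m hm l => ?_⟩
    have h1 : ∀ j, v m l * w j = v m j * w l := by
      intro j
      apply mul_left_cancel₀ hg
      have h2 := hminor m hm l j
      rw [hw' j, hw' l] at h2
      linear_combination h2
    calc v m l = v m l * ∑ j, s j * w j := by rw [hs, mul_one]
      _ = ∑ j, s j * (v m l * w j) := by
        rw [Finset.mul_sum]
        exact Finset.sum_congr rfl fun j _ => by ring
      _ = ∑ j, s j * (v m j * w l) := Finset.sum_congr rfl fun j _ => by rw [h1 j]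
      _ = _ := by
        rw [Finset.sum_mul]
        exact Finset.sum_congr rfl fun j _ => by ring
  have hkinj : ∀ m ∈ H.support, ∀ m' ∈ H.support, k m = k m' → m = m' := by
    intro m hm m' hm' h
    ext l
    have h1 := hk m hm l
    have h2 := hk m' hm' l
    rw [h, ← h2] at h1
    simp only [v] at h1
    omega
  have hw0 : w ≠ 0 := by
    rintro rfl
    simp at hs
  -- the field of functions
  obtain ⟨F, _, _, q, hq⟩ := exists_field (Ideal.span {H})
  have hqX : ∀ l, q (X l) ≠ 0 := fun l h => hX l (Ideal.mem_span_singleton.1 ((hq _).1 h))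
  let x : Fin N → Fˣ := fun l => Units.mk0 (q (X l)) (hqX l)
  have hqa : ∀ f, q f = aeval (fun l => (x l : F)) f := by
    intro f
    have h1 := aeval_unique q
    exact congrArg (fun g => g f) h1
  obtain ⟨t, ht⟩ : ∃ t : Fˣ, t = mon x w := ⟨_, rfl⟩
  -- the product of the powers
  have hprod : ∀ m ∈ H.support, (∏ l, (x l : F) ^ m l) =
      (∏ l, (x l : F) ^ m₀ l) * ((t ^ k m : Fˣ) : F) := by
    intro m hm
    have h1 : (∏ l, x l ^ m l) = (∏ l, x l ^ m₀ l) * t ^ k m := by
      rw [ht]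
      unfold mon
      rw [← Finset.prod_zpow, ← Finset.prod_mul_distrib]
      refine Finset.prod_congr rfl fun l _ => ?_
      rw [← zpow_mul, ← zpow_natCast, ← zpow_natCast, ← zpow_add]
      congr 1
      have h2 := hk m hm l
      simp only [v] at h2
      rw [mul_comm (w l), ← h2]
      ring
    have h2 := congrArg (fun y : Fˣ => (y : F)) h1
    simpa using h2
  -- `t` is algebraic
  have hsum : ∑ m ∈ H.support, algebraMap ℂ F (coeff m H) * ((t ^ k m : Fˣ) : F) = 0 := by
    have h1 : q H = 0 := (hq H).2 (Ideal.mem_span_singleton_self H)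
    rw [hqa, aeval_def, eval₂_eq'] at h1
    have h2 : (∏ l, (x l : F) ^ m₀ l) * ∑ m ∈ H.support,
        algebraMap ℂ F (coeff m H) * ((t ^ k m : Fˣ) : F) = 0 := by
      rw [← h1, Finset.mul_sum]
      refine Finset.sum_congr rfl fun m hm => ?_
      rw [hprod m hm]
      ring
    refine (mul_eq_zero.1 h2).resolve_left ?_
    exact Finset.prod_ne_zero_iff.2 fun l _ => pow_ne_zero _ (x l).ne_zero
  obtain ⟨K₀, hK₀⟩ : ∃ K₀ : ℤ, ∀ m ∈ H.support, K₀ ≤ k m := by
    refine ⟨-∑ m ∈ H.support, |k m|, fun m hm => ?_⟩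
    have h1 := Finset.single_le_sum (f := fun m => |k m|) (fun i _ => abs_nonneg (k i)) hm
    have h2 := neg_abs_le (k m)
    linarith
  have halg : IsAlgebraic ℂ (t : F) := by
    refine ⟨∑ m ∈ H.support, Polynomial.C (coeff m H) * Polynomial.X ^ (k m - K₀).toNat, ?_, ?_⟩
    · intro h0
      have h1 := congrArg (fun p => Polynomial.coeff p (k m₀ - K₀).toNat) h0
      simp only [Polynomial.finsetSum_coeff, Polynomial.coeff_C_mul, Polynomial.coeff_X_pow,
        Polynomial.coeff_zero] at h1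
      rw [Finset.sum_eq_single m₀] at h1
      · rw [if_pos rfl, mul_one] at h1
        exact (mem_support_iff.1 hm₀) h1
      · intro m hm hne
        rw [if_neg, mul_zero]
        intro h2
        apply hne
        apply hkinj m hm m₀ hm₀
        have h3 := hK₀ m hm
        have h4 := hK₀ m₀ hm₀
        omega
      · exact fun h => absurd hm₀ h
    · rw [map_sum]
      have h1 : ∀ m ∈ H.support, Polynomial.aeval (t : F)
          (Polynomial.C (coeff m H) * Polynomial.X ^ (k m - K₀).toNat) =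
          ((t ^ (-K₀) : Fˣ) : F) * (algebraMap ℂ F (coeff m H) * ((t ^ k m : Fˣ) : F)) := by
        intro m hm
        rw [map_mul, map_pow, Polynomial.aeval_X, Polynomial.aeval_C]
        have h2 : t ^ (k m - K₀).toNat = t ^ (-K₀) * t ^ k m := by
          rw [← zpow_natCast, ← zpow_add]
          congr 1
          have h3 := hK₀ m hm
          omega
        have h3 := congrArg (fun y : Fˣ => (y : F)) h2
        simp only [Units.val_pow_eq_pow_val, Units.val_mul] at h3
        rw [h3]
        ring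
      rw [Finset.sum_congr rfl h1, ← Finset.mul_sum, hsum, mul_zero]
  obtain ⟨τ, hτ⟩ : ∃ τ : ℂ, algebraMap ℂ F τ = t := by
    have h1 := minpoly.mem_range_of_degree_eq_one ℂ (t : F)
      (IsAlgClosed.degree_eq_one_of_irreducible ℂ (minpoly.irreducible halg.isIntegral))
    obtain ⟨c, hc⟩ := RingHom.mem_range.1 h1
    exact ⟨c, hc⟩
  have hτ0 : τ ≠ 0 := by
    rintro rfl
    rw [map_zero] at hτ
    exact t.ne_zero hτ.symm
  -- the binomial
  have hbin : H ∣ (∏ l, X l ^ (w l).toNat) - C τ * ∏ l, X l ^ (-w l).toNat := by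
    rw [← Ideal.mem_span_singleton, ← hq, map_sub, map_mul, map_prod, map_prod]
    have h1 := mon_split x w
    rw [← ht] at h1
    have h2 := congrArg (fun y : Fˣ => (y : F)) h1
    simp only [Units.val_mul, Units.coe_prod, Units.val_pow_eq_pow_val] at h2
    have h3 : q (C τ) = t := by
      rw [← hτ]
      exact q.commutes τ
    have h4 : ∀ l, q (X l) = (x l : F) := fun l => rfl
    simp only [map_pow, h3, h4]
    rw [h2, sub_self]
  obtain ⟨z, hz, hzne⟩ := hNC w hw0 (Units.mk0 τ hτ0)
  apply hzne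
  obtain ⟨Q, hQ⟩ := hbin
  have h1 := congrArg (aeval fun j => (z j : ℂ)) hQ
  have h2 : aeval (fun j => (z j : ℂ)) H = 0 := hz
  rw [map_mul, h2, zero_mul, map_sub, map_mul, map_prod, map_prod, aeval_C] at h1
  simp only [map_pow, aeval_X] at h1
  have h3 := mon_split z w
  have h4 : (∏ l, z l ^ (w l).toNat) = Units.mk0 τ hτ0 * ∏ l, z l ^ (-w l).toNat := by
    apply Units.ext
    simp only [Units.val_mul, Units.coe_prod, Units.val_pow_eq_pow_val, Units.val_mk0]
    exact sub_eq_zero.1 h1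
  rw [h4] at h3
  exact mul_right_cancel h3

end

end Pool.Agent.Helper60.ZH
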