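import Pool.Agent.Helper60.ZH.A7
import Pool.Agent.Helper60.ZC.P1
import Pool.Agent.Helper60.ZC.P2
import Pool.Agent.Helper60.ZC.P6

/-!
# From a special place to an unbalanced correspondence
-/

set_option autoImplicit false

namespace Pool.Agent.Helper60.ZH

open Pool.Agent.R948 Pool.Agent.Helper60.ZC

section

open Polynomial

/-- the closure under embeddings -/
theorem cl_map {K L : Type} [Field K] [Algebra ℂ K] [Field L] [Algebra ℂ L] {N : ℕ}
    {H : MvPolynomial (Fin N) ℂ} (φ : K →ₐ[ℂ] L) {A : Set Kˣ} {x : Kˣ} (hx : x ∈ Cl H A) :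
    Units.map (φ : K →* L) x ∈ Cl H (Units.map (φ : K →* L) '' A) := by
  classical
  obtain ⟨s, ⟨G, hG1, hG2⟩, hxs⟩ := hx
  have hwm : ∀ (Q : MvPolynomial (Fin N) ℂ) (p : Fin N → Kˣ),
      hw Q (fun j => Units.map (φ : K →* L) (p j)) = φ (hw Q p) := by
    intro Q p
    rw [hw, hw, MvPolynomial.comp_aeval_apply]
    rfl
  refine ⟨s.image (Units.map (φ : K →* L)), ⟨G.image fun p j => Units.map (φ : K →* L) (p j),
    fun p hp => ?_, fun D hD hA y hy => ?_⟩, Finset.mem_image_of_mem _ hxs⟩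
  · obtain ⟨q, hq, rfl⟩ := Finset.mem_image.1 hp
    obtain ⟨h1, h2⟩ := hG1 q hq
    exact ⟨by rw [hwm, h1, map_zero], fun j => Finset.mem_image_of_mem _ (h2 j)⟩
  · obtain ⟨x', hx', rfl⟩ := Finset.mem_image.1 hy
    let _ : Algebra K L := (φ : K →+* L).toAlgebra
    rw [← Module.forall_dual_apply_eq_zero_iff K]
    intro ℓ
    let D' : LD K :=
      { f := fun z => ℓ (D.f (Units.map (φ : K →* L) z))
        mul' := fun a b => by rw [map_mul, D.mul', map_add]
        cst' := fun c => by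
          have h1 : Units.map (φ : K →* L) (cst K c) = cst L c := by
            ext
            change φ (algebraMap ℂ K c) = algebraMap ℂ L c
            exact φ.commutes _
          rw [h1, D.cst', map_zero] }
    refine hG2 D' (fun p hp => ?_) (fun a ha => ?_) x' hx'
    · have h1 := hD _ (Finset.mem_image_of_mem (fun p j => Units.map (φ : K →* L) (p j)) hp)
      rw [Lin] at h1 ⊢
      have h2 := congrArg ℓ h1
      rw [map_zero, map_sum] at h2
      rw [← h2]
      refine Finset.sum_congr rfl fun j _ => ?_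
      have h3 : ((Units.map (φ : K →* L) (p j) : Lˣ) : L) *
          hw (MvPolynomial.pderiv j H) (fun j => Units.map (φ : K →* L) (p j)) *
            D.f (Units.map (φ : K →* L) (p j)) =
          ((p j : K) * hw (MvPolynomial.pderiv j H) p) • D.f (Units.map (φ : K →* L) (p j)) := by
        rw [hwm, Algebra.smul_def, map_mul]
        rfl
      rw [h3, map_smul, smul_eq_mul]
    · change ℓ (D.f (Units.map (φ : K →* L) a)) = 0
      rw [hA _ ⟨a, ha, rfl⟩, map_zero]

/-- the same for one element -/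
theorem cl_map' {K L : Type} [Field K] [Algebra ℂ K] [Field L] [Algebra ℂ L] {N : ℕ}
    {H : MvPolynomial (Fin N) ℂ} (φ : K →ₐ[ℂ] L) {x y : Kˣ} {x' y' : Lˣ} (hx : x ∈ Cl H {y})
    (hx' : φ x = x') (hy' : φ y = y') : x' ∈ Cl H {y'} := by
  have h1 := cl_map φ hx
  rw [Set.image_singleton] at h1
  have h2 : Units.map (φ : K →* L) x = x' := Units.ext hx'
  have h3 : Units.map (φ : K →* L) y = y' := Units.ext hy'
  rwa [h2, h3] at h1

/-- the product of the roots is determined -/
theorem fwd_roots {L : Type} [Field L] [Algebra ℂ L] [IsAlgClosed L] {N : ℕ}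
    {H : MvPolynomial (Fin N) ℂ} {F : ℂ[X][X]} (hF : F ≠ 0) (h0 : F.coeff 0 ≠ 0)
    (hr : ∀ y : Lˣ, NC y → ∀ x : Lˣ, (py F (y : L)).eval (x : L) = 0 → x ∈ Cl H {y}) :
    Fwd L H (C ((-1) ^ F.natDegree) * F.coeff 0) F.leadingCoeff := by
  classical
  intro y hy v hv
  have hl : F.leadingCoeff ≠ 0 := leadingCoeff_ne_zero.2 hF
  have hly := hy.aeval_ne hl
  have h0y := hy.aeval_ne h0
  have hnd : (py F (y : L)).natDegree = F.natDegree := by
    rw [py]
    exact natDegree_map_of_leadingCoeff_ne_zero _ hly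
  have hlc : (py F (y : L)).leadingCoeff = aeval (y : L) F.leadingCoeff := by
    rw [py]
    exact leadingCoeff_map_of_leadingCoeff_ne_zero _ hly
  have hc0 : (py F (y : L)).coeff 0 = aeval (y : L) (F.coeff 0) := by
    rw [py, coeff_map]
    rfl
  have hne : py F (y : L) ≠ 0 := by
    intro h
    rw [h, leadingCoeff_zero] at hlc
    exact hly hlc.symm
  have hprod := (IsAlgClosed.splits (py F (y : L))).coeff_zero_eq_leadingCoeff_mul_prod_roots
  rw [hc0, hlc, hnd] at hprod
  have hroot : ∀ x : L, (py F (y : L)).eval x = 0 →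
      ∃ hx : x ≠ 0, Units.mk0 x hx ∈ Cl H {y} := by
    intro x hx
    have hx0 : x ≠ 0 := by
      rintro rfl
      rw [← coeff_zero_eq_eval_zero, hc0] at hx
      exact h0y hx
    exact ⟨hx0, hr y hy _ hx⟩
  let s : Multiset Lˣ := (py F (y : L)).roots.map fun x => if hx : x ≠ 0 then Units.mk0 x hx else 1
  have hs : ∀ x ∈ s, x ∈ Cl H {y} := by
    intro x hx
    obtain ⟨z, hz, rfl⟩ := Multiset.mem_map.1 hx
    have h1 : (py F (y : L)).eval z = 0 := (mem_roots hne).1 hz
    obtain ⟨hz0, h2⟩ := hroot z h1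
    rw [dif_pos hz0]
    exact h2
  have hsp : ((s.prod : Lˣ) : L) = (py F (y : L)).roots.prod := by
    rw [← Units.coeHom_apply, map_multiset_prod, Multiset.map_map]
    congr 1
    conv_rhs => rw [← Multiset.map_id (py F (y : L)).roots]
    refine Multiset.map_congr rfl fun z hz => ?_
    have h1 : (py F (y : L)).eval z = 0 := (mem_roots hne).1 hz
    obtain ⟨hz0, h2⟩ := hroot z h1
    simp only [Function.comp_apply, dif_pos hz0, id]
    rfl
  have h3 : v = s.prod := by
    ext
    apply mul_right_cancel₀ hly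
    rw [← hv, map_mul, aeval_C, hsp, hprod]
    have h5 : ((-1 : L) ^ F.natDegree) * (-1) ^ F.natDegree = 1 := by
      rw [← mul_pow]
      simp
    rw [map_pow, map_neg, map_one]
    linear_combination (aeval (y : L) F.leadingCoeff * (py F (y : L)).roots.prod) * h5
  rw [h3]
  exact cl_mprod s hs

/-- **the translations from an unbalanced correspondence** -/
theorem plus_of_unb {L : Type} [Field L] [Algebra ℂ L] [IsAlgClosed L] {N : ℕ}
    {H : MvPolynomial (Fin N) ℂ} {F : ℂ[X][X]} (hF : F ≠ 0) (hb : ¬ Balanced F)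
    (hr : ∀ y : Lˣ, NC y → ∀ x : Lˣ, (py F (y : L)).eval (x : L) = 0 → x ∈ Cl H {y}) :
    Mob L H 1 1 0 1 := by
  have h0 : F.coeff 0 ≠ 0 := by
    intro h
    exact hb ⟨0, 0, Or.inl (by rw [h]; simp)⟩
  have hl : F.leadingCoeff ≠ 0 := leadingCoeff_ne_zero.2 hF
  have h1 : ((-1 : ℂ) ^ F.natDegree) * (-1) ^ F.natDegree = 1 := by
    rw [← mul_pow]
    simp
  have h2 : (C ((-1 : ℂ) ^ F.natDegree) : ℂ[X]) * C ((-1) ^ F.natDegree) = 1 := by
    rw [← C_mul, h1, C_1]
  refine plus_of_fwd (N := C ((-1) ^ F.natDegree) * F.coeff 0) (D := F.leadingCoeff)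
    (mul_ne_zero (C_ne_zero.2 (pow_ne_zero _ (by norm_num))) h0) hl (fwd_roots hF h0 hr) ?_
  rintro ⟨c, m, h | h⟩
  · refine hb ⟨(-1) ^ F.natDegree * c, m, Or.inl ?_⟩
    rw [C_mul]
    linear_combination (C ((-1 : ℂ) ^ F.natDegree)) * h - F.coeff 0 * h2
  · refine hb ⟨c * (-1) ^ F.natDegree, m, Or.inr ?_⟩
    rw [C_mul]
    linear_combination h

end

end Pool.Agent.Helper60.ZH
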