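import Pool.Agent.Helper60.ZH.P8
import Pool.Agent.Helper60.ZH.Def2

/-!
# Hypersurfaces which are not cosets give the translations
-/

set_option autoImplicit false

namespace Pool.Agent.Helper60.ZH

open Pool.Agent.R948 Pool.Agent.Helper60.ZC

section

open Polynomial

/-- **the translations from a special place** -/
theorem plus_all {K : Type} [Field K] [Algebra ℂ K] [IsAlgClosed K] {t : K}
    (ht : Transcendental ℂ t) (halg : ∀ y : K, IsAlgebraic (Algebra.adjoin ℂ {t}) y) {N : ℕ}
    {H : MvPolynomial (Fin N) ℂ} {u z : Kˣ} (hu : NC u) (hz : NC z) (huz : z ∈ Cl H {u})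
    (P₀ : Plc K) (hP1 : P₀.Unt (u : K)) (hP2 : P₀.Spc (z : K)) (L : Type) [Field L] [Algebra ℂ L]
    [IsAlgClosed L] : Mob L H 1 1 0 1 := by
  classical
  obtain ⟨F, w, hF, hd, hb, hw, hr⟩ := exists_unb ht halg hu hz huz P₀ hP1 hP2
  refine plus_of_unb hF.ne_zero hb fun y hy x hx => ?_
  obtain ⟨φ, hφ⟩ := exists_emb (L := L) hw.transc (alg_of_nc ht halg hw.transc) hy.transc
  have h1 : py F (y : L) = (py F (w : K)).map (φ : K →+* L) := by
    rw [py, py, Polynomial.map_map]
    congr 1
    refine RingHom.ext fun p => ?_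
    change aeval (y : L) p = φ (aeval (w : K) p)
    rw [← aeval_algHom_apply, hφ]
  have hne : py F (w : K) ≠ 0 := by
    intro h
    have h2 : (py F (w : K)).coeff F.natDegree = 0 := by rw [h, coeff_zero]
    rw [py, coeff_map] at h2
    exact hw.aeval_ne (leadingCoeff_ne_zero.2 hF.ne_zero) h2
  have h2 : (x : L) ∈ ((py F (w : K)).map (φ : K →+* L)).roots := by
    rw [mem_roots (Polynomial.map_ne_zero hne), ← h1]
    exact hx
  rw [(IsAlgClosed.splits (py F (w : K))).roots_map] at h2
  obtain ⟨z', hz', hzx⟩ := Multiset.mem_map.1 h2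
  have hz'0 : z' ≠ 0 := by
    rintro rfl
    apply x.ne_zero
    rw [← hzx]
    exact map_zero φ
  exact cl_map' φ (hr (Units.mk0 z' hz'0) ((mem_roots hne).1 hz')) hzx hφ

/-- values of polynomials at places -/
theorem R_hw {K : Type} [Field K] [Algebra ℂ K] (P : Plc K) {N : ℕ} (Q : MvPolynomial (Fin N) ℂ)
    (p : Fin N → Kˣ) (c : Fin N → ℂˣ) (h : ∀ l, P.R (p l : K) (c l)) : P.R (hw Q p) (hw Q c) := by
  rw [hw, hw]
  induction Q using MvPolynomial.induction_on with
  | C a =>
    rw [MvPolynomial.aeval_C, MvPolynomial.aeval_C]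
    exact P.const a
  | add p q hp hq =>
    rw [map_add, map_add]
    exact P.add _ _ _ _ hp hq
  | mul_X q l hq =>
    rw [map_mul, map_mul, MvPolynomial.aeval_X, MvPolynomial.aeval_X]
    exact P.mul _ _ _ _ hq (h l)

/-- a field of functions of one variable -/
theorem exists_K : ∃ (K : Type) (_ : Field K) (_ : Algebra ℂ K) (_ : IsAlgClosed K) (t : K),
    Transcendental ℂ t ∧ ∀ y : K, IsAlgebraic (Algebra.adjoin ℂ {t}) y := by
  let k₀ := FractionRing ℂ[X]
  let K := AlgebraicClosure k₀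
  let t : K := algebraMap k₀ K (algebraMap ℂ[X] k₀ X)
  have hinj : Function.Injective (algebraMap ℂ[X] K) := by
    rw [IsScalarTower.algebraMap_eq ℂ[X] k₀ K]
    exact (algebraMap k₀ K).injective.comp (IsFractionRing.injective _ _)
  have hta : ∀ p : ℂ[X], aeval t p = algebraMap ℂ[X] K p := by
    intro p
    have h1 : t = algebraMap ℂ[X] K X := (IsScalarTower.algebraMap_apply ℂ[X] k₀ K X).symm
    rw [h1, aeval_algebraMap_apply, aeval_X_left_apply]
  refine ⟨K, inferInstance, inferInstance, inferInstance, t, ?_, fun y => ?_⟩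
  · rw [transcendental_iff_injective]
    intro p q hpq
    have h1 : aeval t p = aeval t q := hpq
    rw [hta, hta] at h1
    exact hinj h1
  · have h1 : IsAlgebraic k₀ y := Algebra.IsAlgebraic.isAlgebraic y
    have h2 : IsAlgebraic ℂ[X] y := (IsFractionRing.isAlgebraic_iff ℂ[X] k₀ K).2 h1
    obtain ⟨p, hp0, hp⟩ := h2
    let g : ℂ[X] →+* Algebra.adjoin ℂ {t} :=
      (algebraMap ℂ[X] K).codRestrict (Algebra.adjoin ℂ {t}) fun q => by
        rw [← hta, Algebra.adjoin_singleton_eq_range_aeval]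
        exact ⟨q, rfl⟩
    have hg : Function.Injective g := fun a b hab => hinj (congrArg Subtype.val hab)
    refine ⟨p.map g, ?_, ?_⟩
    · rwa [Polynomial.map_ne_zero_iff hg]
    · rw [aeval_def, eval₂_map]
      rw [aeval_def] at hp
      exact hp

/-- **the translations from a point with an irrational logarithmic gradient** -/
theorem plus_of_pt (hS : S_SLC) {N : ℕ} {H : MvPolynomial (Fin N) ℂ} {c : Fin N → ℂˣ} {i j : Fin N}
    (hHc : hw H c = 0) (hne : ∀ a b : ℤ, (a ≠ 0 ∨ b ≠ 0) →
      (a : ℂ) * (c i * hw (MvPolynomial.pderiv i H) c) +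
        b * (c j * hw (MvPolynomial.pderiv j H) c) ≠ 0)
    (L : Type) [Field L] [Algebra ℂ L] [IsAlgClosed L] : Mob L H 1 1 0 1 := by
  classical
  have hij : i ≠ j := by
    rintro rfl
    have h1 := hne 1 (-1) (Or.inl one_ne_zero)
    apply h1
    push_cast
    ring
  have hHj : hw (MvPolynomial.pderiv j H) c ≠ 0 := by
    intro h
    apply hne 0 1 (Or.inr one_ne_zero)
    rw [h]
    simp
  obtain ⟨K, _, _, _, t, ht, halg⟩ := exists_K
  obtain ⟨P, hP⟩ := t_ex K t ht halg
  have hx0 : t + algebraMap ℂ K (c i) ≠ 0 := by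
    intro h
    apply ht
    have h1 : t = algebraMap ℂ K (-(c i : ℂ)) := by
      rw [map_neg]
      exact eq_neg_of_add_eq_zero_left h
    rw [h1]
    exact isAlgebraic_algebraMap _
  let x : Kˣ := Units.mk0 _ hx0
  have hxv : (x : K) = t + algebraMap ℂ K (c i) := rfl
  have hxP : P.R (x : K) (c i) := by
    have h1 := P.add _ _ _ _ hP (P.const (c i : ℂ))
    rwa [zero_add] at h1
  have hxn : NC x := by
    intro e he
    apply ht
    have h1 : t = algebraMap ℂ K ((e : ℂ) - c i) := by
      rw [map_sub, ← cst_val, ← he, hxv]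
      ring
    rw [h1]
    exact isAlgebraic_algebraMap _
  obtain ⟨p, hHp, hpi, hpl, hpj⟩ := hS N H c i j hij hHc hHj K P x hxP
  have hpR : ∀ l, P.R (p l : K) (c l) := by
    intro l
    by_cases h1 : l = i
    · rw [h1, hpi]; exact hxP
    by_cases h2 : l = j
    · rw [h2]; exact hpj
    rw [hpl l h1 h2, cst_val]
    exact P.const _
  have hHjp : hw (MvPolynomial.pderiv j H) p ≠ 0 := by
    intro h
    have h1 := R_hw P (MvPolynomial.pderiv j H) p c hpR
    rw [h] at h1
    exact hHj (P.uniq _ _ _ h1 P.zero)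
  -- the sum of the linearized gate
  have hsum : ∀ D : LD K, Lin H D p → (p i : K) * hw (MvPolynomial.pderiv i H) p * D.f (p i) +
      (p j : K) * hw (MvPolynomial.pderiv j H) p * D.f (p j) = 0 := by
    intro D hD
    rw [Lin] at hD
    rw [← hD]
    have h1 : ∑ l, (p l : K) * hw (MvPolynomial.pderiv l H) p * D.f (p l) =
        ∑ l ∈ {i, j}, (p l : K) * hw (MvPolynomial.pderiv l H) p * D.f (p l) := by
      symm
      refine Finset.sum_subset (Finset.subset_univ _) fun l _ hl => ?_
      rw [Finset.mem_insert, Finset.mem_singleton, not_or] at hl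
      rw [hpl l hl.1 hl.2, D.cst', mul_zero]
    rw [h1, Finset.sum_pair hij]
  set y := p j with hydef
  have hyx : y ∈ Cl H {x} := by
    refine ⟨Finset.univ.image p, ⟨{p}, fun q hq => ?_, fun D hD hA z hz => ?_⟩,
      Finset.mem_image_of_mem _ (Finset.mem_univ j)⟩
    · rw [Finset.mem_singleton.1 hq]
      exact ⟨hHp, fun l => Finset.mem_image_of_mem _ (Finset.mem_univ l)⟩
    · obtain ⟨l, -, rfl⟩ := Finset.mem_image.1 hz
      have h1 := hsum D (hD p (Finset.mem_singleton_self p))
      have h2 : D.f (p i) = 0 := by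
        rw [hpi]
        exact hA x rfl
      rw [h2, mul_zero, zero_add] at h1
      have h3 : D.f (p j) = 0 := by
        rcases mul_eq_zero.1 h1 with h | h
        · rcases mul_eq_zero.1 h with h | h
          · exact absurd h (p j).ne_zero
          · exact absurd h hHjp
        · exact h
      by_cases h4 : l = i
      · rw [h4]; exact h2
      by_cases h5 : l = j
      · rw [h5]; exact h3
      rw [hpl l h4 h5]
      exact D.cst' _
  -- independence
  have hind : ∀ (a b : ℤ), (a ≠ 0 ∨ b ≠ 0) → ∀ e : ℂˣ, x ^ a * y ^ b ≠ cst K e := by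
    intro a b hab e he
    obtain ⟨d, hd⟩ := exists_ofDer hxn
    have h1 := hsum (LD.ofDer d) (lin_ofDer d hHp)
    rw [hpi, hd, mul_one] at h1
    have h2 : (LD.ofDer d).f (x ^ a * y ^ b) = 0 := by rw [he]; exact (LD.ofDer d).cst' e
    rw [LD.mul', LD.zpow, LD.zpow, hd, mul_one] at h2
    have h3 : (b : K) * ((x : K) * hw (MvPolynomial.pderiv i H) p) +
        ((-a : ℤ) : K) * ((y : K) * hw (MvPolynomial.pderiv j H) p) = 0 := by
      push_cast
      linear_combination (b : K) * h1 - ((y : K) * hw (MvPolynomial.pderiv j H) p) * h2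
    have h4 : P.R ((b : K) * ((x : K) * hw (MvPolynomial.pderiv i H) p) +
        ((-a : ℤ) : K) * ((y : K) * hw (MvPolynomial.pderiv j H) p))
        ((b : ℂ) * (c i * hw (MvPolynomial.pderiv i H) c) +
          ((-a : ℤ) : ℂ) * (c j * hw (MvPolynomial.pderiv j H) c)) := by
      have hint : ∀ m : ℤ, P.R (m : K) (m : ℂ) := by
        intro m
        have h5 := P.const (m : ℂ)
        rwa [map_intCast] at h5
      refine P.add _ _ _ _ (P.mul _ _ _ _ (hint b) (P.mul _ _ _ _ hxP (R_hw P _ p c hpR)))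
        (P.mul _ _ _ _ (hint _) (P.mul _ _ _ _ hpj (R_hw P _ p c hpR)))
    rw [h3] at h4
    refine hne b (-a) ?_ (P.uniq _ _ _ h4 P.zero)
    rcases hab with h | h
    · exact Or.inr (neg_ne_zero.2 h)
    · exact Or.inl h
  -- the special place
  obtain ⟨P₁, hP₁⟩ := t_ex K (x : K) hxn.transc (alg_of_nc ht halg hxn.transc)
  obtain ⟨F, hF, hdF, h0F, hrF⟩ := exists_irr hxn.transc y.ne_zero
    (alg_of_nc ht halg hxn.transc (y : K))
  obtain ⟨m, -, hm⟩ := t_new K F (F.support.sup fun i => (F.coeff i).natDegree) hF.ne_zero (fun l => by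
    by_cases hl : l ∈ F.support
    · exact Finset.le_sup (f := fun i => (F.coeff i).natDegree) hl
    · rw [notMem_support_iff.1 hl, natDegree_zero]
      exact Nat.zero_le _) P₁ (y : K) (x : K) y.ne_zero x.ne_zero (Or.inl hP₁) hrF
  set Q := F.natDegree.factorial with hQ
  have hQ0 : (Q : ℤ) ≠ 0 := by
    have := F.natDegree.factorial_ne_zero
    exact_mod_cast this
  let u : Kˣ := x ^ (-m) * y ^ (Q : ℤ)
  have hun : NC u := fun e he => hind (-m) Q (Or.inr hQ0) e he
  have huv : P₁.Unt (u : K) := by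
    have h1 : (u : K) = (y : K) ^ Q * (x : K) ^ (-m) := by
      rw [Units.val_mul, Units.val_zpow_eq_zpow_val, Units.val_zpow_eq_zpow_val, zpow_natCast]
      ring
    rw [h1]
    exact hm
  have hucl : u ∈ Cl H {x} := cl_mul (cl_zpow (cl_self' x) _) (cl_zpow hyx _)
  have hxu : x ∈ Cl H {u} := exchange hxn hun hucl
  exact plus_all ht halg hun hxn hxu P₁ huv (Or.inl hP₁) L

/-- **the encoding for hypersurfaces which are not cosets** -/
theorem enc_all (hS : S_SLC) (hB : S_NBT) {N : ℕ} {H : MvPolynomial (Fin N) ℂ} (hH : Irreducible H)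
    (hnc : ∀ a : Fin N → ℤ, a ≠ 0 → ∀ c : ℂˣ, ∃ z : Fin N → ℂˣ, hw H z = 0 ∧ mon z a ≠ c) :
    Enc H := by
  obtain ⟨z, i, j, hz, hne⟩ := hB N H hH hnc
  exact t_enc fun L _ _ _ => plus_of_pt hS hz hne L

end

end Pool.Agent.Helper60.ZH
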