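import Pool.Agent.Helper60.ZH.Def2

/-!
# Lifting of a smooth point of a plane slice (module of helper21)
-/

set_option autoImplicit false

namespace Pool.Agent.Helper60.ZH

open Polynomial Pool.Agent.R948 Pool.Agent.Helper60.ZC

section

variable {K : Type} [Field K] [Algebra ℂ K] (P : Plc K)

/-- the coefficients of `f` are finite at the place and reduce to those of `g` -/
def Red (f : K[X]) (g : ℂ[X]) : Prop := ∀ m, P.R (f.coeff m) (g.coeff m)

variable {P}

lemma Red.add {f f' : K[X]} {g g' : ℂ[X]} (h : Red P f g) (h' : Red P f' g') :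
    Red P (f + f') (g + g') := fun m => by
  rw [coeff_add, coeff_add]; exact P.add _ _ _ _ (h m) (h' m)

lemma Red.mul {f f' : K[X]} {g g' : ℂ[X]} (h : Red P f g) (h' : Red P f' g') :
    Red P (f * f') (g * g') := fun m => by
  rw [coeff_mul, coeff_mul]
  exact P.sum _ _ _ fun q _ => P.mul _ _ _ _ (h q.1) (h' q.2)

lemma Red.C {a : K} {b : ℂ} (h : P.R a b) : Red P (Polynomial.C a) (Polynomial.C b) := fun m => by
  rw [coeff_C, coeff_C]
  split_ifs
  · exact h
  · exact P.zero

lemma Red.X : Red P (Polynomial.X : K[X]) (Polynomial.X : ℂ[X]) := fun m => by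
  rw [coeff_X, coeff_X]
  split_ifs
  · exact P.one
  · exact P.zero

lemma Red.aeval {N : ℕ} {v : Fin N → K[X]} {v0 : Fin N → ℂ[X]} (h : ∀ l, Red P (v l) (v0 l))
    (H : MvPolynomial (Fin N) ℂ) : Red P (MvPolynomial.aeval v H) (MvPolynomial.aeval v0 H) := by
  induction H using MvPolynomial.induction_on with
  | C a =>
    rw [MvPolynomial.aeval_C, MvPolynomial.aeval_C]
    exact Red.C (P.const a)
  | add p q hp hq =>
    rw [map_add, map_add]
    exact hp.add hq
  | mul_X p l hp =>
    rw [map_mul, map_mul, MvPolynomial.aeval_X, MvPolynomial.aeval_X]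
    exact hp.mul (h l)

lemma red_prod (s : Multiset K) (h : ∀ z ∈ s, ∃ b, P.R z⁻¹ b) :
    ∃ h0 : ℂ[X], Red P (s.map fun z => 1 - Polynomial.C z⁻¹ * Polynomial.X).prod h0 := by
  induction s using Multiset.induction_on with
  | empty =>
    refine ⟨Polynomial.C 1, ?_⟩
    rw [Multiset.map_zero, Multiset.prod_zero, ← Polynomial.C_1]
    exact Red.C P.one
  | cons z s ih =>
    obtain ⟨h0, hh⟩ := ih fun y hy => h y (Multiset.mem_cons_of_mem hy)
    obtain ⟨b, hb⟩ := h z (Multiset.mem_cons_self z s)
    refine ⟨(Polynomial.C 1 + Polynomial.C (-b) * Polynomial.X) * h0, ?_⟩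
    rw [Multiset.map_cons, Multiset.prod_cons]
    refine Red.mul ?_ hh
    have e : (1 : K[X]) - Polynomial.C z⁻¹ * Polynomial.X =
        Polynomial.C 1 + Polynomial.C (-z⁻¹) * Polynomial.X := by
      rw [Polynomial.C_1, Polynomial.C_neg]; ring
    rw [e]
    exact (Red.C P.one).add ((Red.C (P.neg hb)).mul Red.X)

/-- a simple zero of the reduction lifts -/
theorem exists_zero [IsAlgClosed K] {f : K[X]} {g : ℂ[X]} (h : Red P f g) (h0 : g.coeff 0 = 0)
    (h1 : g.coeff 1 ≠ 0) : ∃ z : K, f.eval z = 0 ∧ P.R z 0 := by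
  classical
  by_contra hcon
  push Not at hcon
  have hf : f ≠ 0 := by
    rintro rfl
    have h2 := h 1
    rw [coeff_zero] at h2
    exact h1 (P.uniq _ _ _ h2 P.zero)
  have hz : ∀ z ∈ f.roots, z ≠ 0 ∧ ∃ b, P.R z⁻¹ b := by
    intro z hz
    have hz1 : f.eval z = 0 := (mem_roots hf).1 hz
    have hz2 := hcon z hz1
    have hz0 : z ≠ 0 := by
      rintro rfl
      exact hz2 P.zero
    refine ⟨hz0, ?_⟩
    rcases P.alt z hz0 with ⟨c, hc⟩ | hc
    · have hc0 : c ≠ 0 := by
        rintro rfl
        exact hz2 hc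
      exact ⟨_, P.inv hc hc0⟩
    · exact ⟨_, hc⟩
  obtain ⟨q, hq⟩ := red_prod f.roots fun z hz' => (hz z hz').2
  have hprod : f = Polynomial.C f.leadingCoeff * (f.roots.map fun x => Polynomial.X - Polynomial.C x).prod :=
    (IsAlgClosed.splits f).eq_prod_roots
  have hfac : ∀ s : Multiset K, (∀ z ∈ s, z ≠ 0) →
      (s.map fun x => Polynomial.X - Polynomial.C x).prod =
        Polynomial.C (s.map fun x => -x).prod *
          (s.map fun z => 1 - Polynomial.C z⁻¹ * Polynomial.X).prod := by
    intro s
    induction s using Multiset.induction_on with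
    | empty => intro _; simp
    | cons z s ih =>
      intro hs
      have hz0 := hs z (Multiset.mem_cons_self z s)
      rw [Multiset.map_cons, Multiset.prod_cons, Multiset.map_cons, Multiset.prod_cons,
        Multiset.map_cons, Multiset.prod_cons, ih fun y hy => hs y (Multiset.mem_cons_of_mem hy)]
      have e : (Polynomial.X - Polynomial.C z : K[X]) =
          Polynomial.C (-z) * (1 - Polynomial.C z⁻¹ * Polynomial.X) := by
        have e1 : Polynomial.C z * Polynomial.C z⁻¹ = (1 : K[X]) := by
          rw [← Polynomial.C_mul, mul_inv_cancel₀ hz0, Polynomial.C_1]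
        rw [Polynomial.C_neg]
        linear_combination (-Polynomial.X) * e1
      rw [e, Polynomial.C_mul]
      ring
  rw [hfac _ fun z hz' => (hz z hz').1, ← mul_assoc, ← Polynomial.C_mul] at hprod
  set A := f.leadingCoeff * (f.roots.map fun x => -x).prod with hA
  set hh := (f.roots.map fun z => 1 - Polynomial.C z⁻¹ * Polynomial.X).prod with hhh
  have hc0 : hh.coeff 0 = 1 := by
    rw [coeff_zero_eq_eval_zero, hhh, eval_multiset_prod, Multiset.map_map]
    apply Multiset.prod_eq_one
    intro x hx
    obtain ⟨z, _, rfl⟩ := Multiset.mem_map.1 hx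
    simp
  have hA0 : P.R A 0 := by
    have h2 := h 0
    rw [hprod, coeff_C_mul, hc0, mul_one, h0] at h2
    exact h2
  have h3 := h 1
  rw [hprod, coeff_C_mul] at h3
  have h4 := P.mul _ _ _ _ hA0 (hq 1)
  rw [zero_mul] at h4
  exact h1 (P.uniq _ _ _ h3 h4)

end

/-- the derivative of a substitution -/
lemma derivative_aeval {N : ℕ} (v : Fin N → ℂ[X]) (j : Fin N) (hv : derivative (v j) = 1)
    (hv' : ∀ l, l ≠ j → derivative (v l) = 0) (H : MvPolynomial (Fin N) ℂ) :
    derivative (MvPolynomial.aeval v H) = MvPolynomial.aeval v (MvPolynomial.pderiv j H) := by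
  induction H using MvPolynomial.induction_on with
  | C a =>
    rw [MvPolynomial.aeval_C, MvPolynomial.pderiv_C, map_zero, Polynomial.algebraMap_apply,
      derivative_C]
  | add p q hp hq =>
    rw [map_add, derivative_add, hp, hq, map_add, map_add]
  | mul_X p l hp =>
    rw [map_mul, derivative_mul, hp, MvPolynomial.aeval_X, Derivation.leibniz, map_add, smul_eq_mul,
      smul_eq_mul, map_mul, map_mul, MvPolynomial.aeval_X]
    by_cases h : l = j
    · subst h
      rw [hv, MvPolynomial.pderiv_X_self, map_one]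
      ring
    · rw [hv' l h, MvPolynomial.pderiv_X_of_ne h , map_zero]
      ring

theorem t_slc : S_SLC := by
  classical
  intro N H c i j hij hHc hHj K _ _ _ P x hx
  set v : Fin N → K[X] := fun l => if l = j then Polynomial.X + Polynomial.C (algebraMap ℂ K (c j)) else
    if l = i then Polynomial.C (x : K) else Polynomial.C (algebraMap ℂ K (c l)) with hv
  set v0 : Fin N → ℂ[X] := fun l => if l = j then Polynomial.X + Polynomial.C (c j : ℂ) else
    Polynomial.C (c l : ℂ) with hv0
  have hred : ∀ l, Red P (v l) (v0 l) := by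
    intro l
    simp only [hv, hv0]
    by_cases h : l = j
    · rw [if_pos h, if_pos h]
      exact Red.X.add (Red.C (P.const _))
    · rw [if_neg h, if_neg h]
      by_cases h' : l = i
      · rw [if_pos h', h']
        exact Red.C hx
      · rw [if_neg h']
        exact Red.C (P.const _)
  have hR := Red.aeval hred H
  have hev0 : ∀ G : MvPolynomial (Fin N) ℂ, (MvPolynomial.aeval v0 G).eval 0 = hw G c := by
    intro G
    have e1 : (MvPolynomial.aeval v0 G).eval 0 = (Polynomial.aeval (0 : ℂ)) (MvPolynomial.aeval v0 G) := by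
      rw [Polynomial.coe_aeval_eq_eval]
    rw [e1, hw, MvPolynomial.comp_aeval_apply]
    congr 1
    congr 1
    funext l
    simp only [hv0]
    by_cases h : l = j
    · subst h; simp
    · simp [h]
  have hc0 : (MvPolynomial.aeval v0 H).coeff 0 = 0 := by
    rw [coeff_zero_eq_eval_zero, hev0, hHc]
  have hc1 : (MvPolynomial.aeval v0 H).coeff 1 ≠ 0 := by
    have h2 := derivative_aeval v0 j (by simp [hv0]) (fun l hl => by simp [hv0, hl]) H
    have h3 := congrArg (fun q => q.coeff 0) h2
    rw [coeff_derivative, Nat.cast_zero, zero_add, zero_add, mul_one, coeff_zero_eq_eval_zero, hev0] at h3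
    rw [h3]
    exact hHj
  obtain ⟨z, hz, hz0⟩ := exists_zero hR hc0 hc1
  have hy : P.R (z + algebraMap ℂ K (c j)) (c j) := by
    have h2 := P.add _ _ _ _ hz0 (P.const (c j))
    rwa [zero_add] at h2
  have hyne : z + algebraMap ℂ K (c j) ≠ 0 := P.ne_zero hy (c j).ne_zero
  refine ⟨fun l => if l = j then Units.mk0 _ hyne else if l = i then x else cst K (c l), ?_, ?_, ?_, ?_⟩
  · have e1 : (MvPolynomial.aeval v H).eval z = (Polynomial.aeval z) (MvPolynomial.aeval v H) := by
      rw [Polynomial.coe_aeval_eq_eval]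
    have e3 : (Polynomial.aeval z : K[X] →ₐ[K] K) (MvPolynomial.aeval v H) =
        ((Polynomial.aeval z : K[X] →ₐ[K] K).restrictScalars ℂ) (MvPolynomial.aeval v H) := rfl
    rw [e1, e3, MvPolynomial.comp_aeval_apply] at hz
    rw [hw]
    rw [← hz]
    congr 1
    congr 1
    funext l
    simp only [hv]
    by_cases h : l = j
    · rw [if_pos h, if_pos h]; simp
    · rw [if_neg h, if_neg h]
      by_cases h' : l = i
      · rw [if_pos h', if_pos h']; simp
      · rw [if_neg h', if_neg h']; simp [ZC.cst]
  · simp [hij]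
  · intro l hl hlj
    simp [hl, hlj]
  · simpa using hy

end Pool.Agent.Helper60.ZH
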